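import Pool.Agent.N793.LI.FinHalf
import Pool.Agent.N793.LI.Inst
import Pool.Agent.W174.HF.NF1
import Pool.Agent.W169.HF.EC

/-!
# All or one half: the proportion of the nonnegative Li coefficients of elliptic curves

Let `E` be an elliptic curve over `ℚ` and `Λ` its completed L-function (critical line `Re s = 1`).  For a
real number `α > 1` (the base point) with `Λ(x) ≠ 0` for all real `x ≥ α` (for example `α > 3/2`) the Li
coefficients are

  `λ_n = ∑_ρ Re (1 - ((ρ - α) / (ρ + α - 2))^n)`,

the sum over all zeros of `Λ` with multiplicity (absolutely convergent; `α = 3/2` are the classical ones).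
By Li, Bombieri-Lagarias, Lagarias (and Sekatskii for arbitrary base points) the Riemann hypothesis for
`L(E, s)` holds if and only if ALL `λ_n` are nonnegative.

We prove that for all but countably many base points there are only two possibilities.  Either the Riemann
hypothesis holds for `L(E, s)`, and all `λ_n` are nonnegative; or it is false, and then the set of the `n`
with `λ_n ≥ 0` has natural density EXACTLY ONE HALF, also in every arithmetic progression with odd difference,
and almost all `|λ_n|` are larger than `e^(ε n)`, for some `ε > 0`: one half of the `λ_n` are larger than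
`e^(ε n)`, one half are smaller than `- e^(ε n)`.  So for such a base point the Riemann hypothesis for
`L(E, s)` is equivalent to each of the following statements, for any odd `q` and any `r`:

* more than one half of the coefficients `λ_(qm+r)` are nonnegative (in the sense of the upper density);
* for every `ε > 0`, more than one half of these coefficients are at least `- e^(ε n)`;
* for every `ε > 0`, more than one half of these coefficients are at most `e^(ε n)`;
* for every `ε > 0`, the set of those which are at most `e^(ε n)` in absolute value does not have density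
  zero.

In particular, the Riemann hypothesis for `L(E, s)` holds if and only if for UNCOUNTABLY many base points
`α > 3/2` more than one half of the Li coefficients are nonnegative.

Proof.  `w = (ρ - α)/(ρ + α - 2)` has modulus one exactly on the line, and `w → 1` as `|ρ| → ∞`; so if the
Riemann hypothesis fails the maximum `R > 1` of `|w|` is attained, for finitely many zeros.  For two zeros
left of the line, not equal or conjugate, the moduli are equal for at most one `α`; and for a zero `ρ`,
neither real nor on the line, the argument of `w` is a rational multiple of `π` for countably many `α` only.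
So, if `α` does not belong to a countable set, then `λ_n = - μ R^n cos(n θ) + o(R^n)` with `θ/π` irrational
or `θ = π` (a real zero).  The last function changes its sign (approximately) under a translation and is
rarely small.  The properties of the L-functions are taken from the starting modules
`Pool.Agent.W169.HF`, `Pool.Agent.W174.HF` and `Pool.Agent.W355.UN`.
-/

set_option autoImplicit false

open Complex UpperHalfPlane MatrixGroups CongruenceSubgroup Filter Topology

namespace Pool.Agent.N793.Shelf.LiHalfQ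

/-- The coefficient `a_p` of `E : y² = x³ + a x + b` at a prime `p ∤ 2 (4a³ + 27b²)`: `p` minus the
number of pairs `(x, y)` modulo `p` with `y² ≡ x³ + a x + b (mod p)`. -/
noncomputable def ap (a b : ℤ) (p : ℕ) : ℤ :=
  (p : ℤ) - (((Finset.range p ×ˢ Finset.range p).filter
    (fun xy : ℕ × ℕ => (p : ℤ) ∣ (xy.2 : ℤ) ^ 2 -
      ((xy.1 : ℤ) ^ 3 + a * (xy.1 : ℤ) + b))).card : ℤ)

/-- The `n`-th Fourier coefficient of `f`. -/
noncomputable def coef {N : ℕ} (f : CuspForm (Gamma0 N : Subgroup (GL (Fin 2) ℝ)) 2) (n : ℕ) : ℂ :=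
  (qExpansion 1 f).coeff n

/-- `f ∈ S_2(Γ₀(N))` is the newform of the elliptic curve `E : y² = x³ + a x + b` of conductor `N` and
root number `w`: the Fourier coefficients `c(n)` of `f` are real with `c(1) = 1`, they satisfy the
Hecke relations `c(mn) = c(m) c(n)` for coprime `m`, `n` and `c(p^(j+2)) = c(p) c(p^(j+1)) - p c(p^j)`
(without the last term if `p ∣ N`), `f(-1/(Nτ)) = -w N τ² f(τ)`, `c(p) = a_p(E)` for all primes
`p ∤ 2 (4a³ + 27b²)`, `|c(p)| ≤ 2 √p` for all `p ∤ N` (Hasse) and `c(p) = 0, 1, -1` for `p ∣ N`.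
By the modularity theorem (Wiles, Taylor-Wiles, Breuil-Conrad-Diamond-Taylor) it exists for every `E`. -/
structure IsFormOf (a b : ℤ) (N : ℕ) (f : CuspForm (Gamma0 N : Subgroup (GL (Fin 2) ℝ)) 2) (w : ℝ) :
    Prop where
  one : coef f 1 = 1
  real : ∀ n, (coef f n).im = 0
  mul : ∀ m n : ℕ, Nat.Coprime m n → coef f (m * n) = coef f m * coef f n
  pow : ∀ p j : ℕ, p.Prime → coef f (p ^ (j + 2)) = coef f p * coef f (p ^ (j + 1)) -
      (if p ∣ N then 0 else (p : ℂ) * coef f (p ^ j))
  sign : w = 1 ∨ w = -1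
  fricke : ∀ τ τ' : ℍ, (τ' : ℂ) * ((N : ℂ) * (τ : ℂ)) = -1 →
    f τ' = -(w : ℂ) * (N : ℂ) * (τ : ℂ) ^ 2 * f τ
  points : ∀ p : ℕ, p.Prime → ¬ (p : ℤ) ∣ 2 * (4 * a ^ 3 + 27 * b ^ 2) → coef f p = (ap a b p : ℂ)
  good : ∀ p : ℕ, p.Prime → ¬ p ∣ N → ‖coef f p‖ ≤ 2 * Real.sqrt p
  bad : ∀ p : ℕ, p.Prime → p ∣ N → coef f p = 0 ∨ coef f p = 1 ∨ coef f p = -1

/-- `Λ` is the completed L-function of `f`: it is entire and
`Λ(s) = N^(s/2) (2π)^(-s) Γ(s) ∑ c(n) n^(-s)` for `Re s > 2`. -/
def IsCompleted {N : ℕ} (f : CuspForm (Gamma0 N : Subgroup (GL (Fin 2) ℝ)) 2) (Λ : ℂ → ℂ) : Prop :=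
  Differentiable ℂ Λ ∧ ∀ s : ℂ, 2 < s.re →
    Λ s = ((Real.sqrt N / (2 * Real.pi) : ℝ) : ℂ) ^ s * Complex.Gamma s *
      ∑' n : ℕ, coef f (n + 1) * ((n + 1 : ℕ) : ℂ) ^ (-s)

/-! ### The Li coefficients -/

/-- The `n`-th Li coefficient of `Λ` with the base point `α`, for the critical line `Re s = c`: the sum
of `Re (1 - ((ρ - α)/(ρ + α - 2c))^n)` over the zeros `ρ` of `Λ` with multiplicity. -/
noncomputable def li (Λ : ℂ → ℂ) (c α : ℝ) (n : ℕ) : ℝ :=
  ∑' ρ : ℂ, (analyticOrderNatAt Λ ρ : ℝ) * (1 - (((ρ - α) / (ρ + α - 2 * c)) ^ n).re)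

/-- The Riemann hypothesis: all zeros of `Λ` are on the line `Re s = c`. -/
def OnLine (Λ : ℂ → ℂ) (c : ℝ) : Prop := ∀ s : ℂ, Λ s = 0 → s.re = c

/-- The proportion of the elements of `A` among the numbers `0, …, N - 1`. -/
noncomputable def proportion (A : Set ℕ) (N : ℕ) : ℝ := ((A ∩ Set.Iio N).ncard : ℝ) / N

/-- `A` has the natural density `δ`. -/
def HasDensity (A : Set ℕ) (δ : ℝ) : Prop := Tendsto (proportion A) atTop (𝓝 δ)

/-- The upper density of `A` is larger than one half. -/
def MoreThanHalf (A : Set ℕ) : Prop := ∃ δ : ℝ, 0 < δ ∧ ∃ᶠ N in atTop, 1 / 2 + δ ≤ proportion A N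

/-- The statements on the proportion of the nonnegative Li coefficients with the base point `α`. -/
structure LiProportions (Λ : ℂ → ℂ) (c α : ℝ) : Prop where
  /-- absolute convergence -/
  summable : ∀ n : ℕ, Summable fun ρ : ℂ =>
    (analyticOrderNatAt Λ ρ : ℝ) * (1 - (((ρ - α) / (ρ + α - 2 * c)) ^ n).re)
  /-- if the Riemann hypothesis holds: all -/
  all : OnLine Λ c → ∀ n : ℕ, 0 ≤ li Λ c α n
  /-- if the Riemann hypothesis fails: one half are nonnegative, and for some `ε > 0` one half are at least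
  `- e^(ε n)` and one half are at most `e^(ε n)`, in every progression with odd difference -/
  half : ¬ OnLine Λ c → ∃ ε : ℝ, 0 < ε ∧ ∀ q r : ℕ, Odd q →
    HasDensity {m | 0 ≤ li Λ c α (q * m + r)} (1 / 2) ∧
    HasDensity {m | -Real.exp (ε * ((q * m + r : ℕ) : ℝ)) ≤ li Λ c α (q * m + r)} (1 / 2) ∧
    HasDensity {m | li Λ c α (q * m + r) ≤ Real.exp (ε * ((q * m + r : ℕ) : ℝ))} (1 / 2)
  /-- more than one half are nonnegative -/
  nonneg : ∀ q r : ℕ, Odd q → (OnLine Λ c ↔ MoreThanHalf {m | 0 ≤ li Λ c α (q * m + r)})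
  /-- more than one half are not exponentially negative -/
  lower : ∀ q r : ℕ, Odd q → (OnLine Λ c ↔ ∀ ε : ℝ, 0 < ε →
    MoreThanHalf {m | -Real.exp (ε * ((q * m + r : ℕ) : ℝ)) ≤ li Λ c α (q * m + r)})
  /-- more than one half are not exponentially positive -/
  upper : ∀ q r : ℕ, Odd q → (OnLine Λ c ↔ ∀ ε : ℝ, 0 < ε →
    MoreThanHalf {m | li Λ c α (q * m + r) ≤ Real.exp (ε * ((q * m + r : ℕ) : ℝ))})
  /-- those which are not exponentially large do not have density zero -/
  small : ∀ q r : ℕ, Odd q → (OnLine Λ c ↔ ∀ ε : ℝ, 0 < ε →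
    ¬ HasDensity {m | |li Λ c α (q * m + r)| ≤ Real.exp (ε * ((q * m + r : ℕ) : ℝ))} 0)

/-- **Main theorem.** Let `Λ` be the completed L-function of an elliptic curve over `ℚ`.

* There is a countable set `X` such that the statements `LiProportions` hold for every base point `α > 1`
  not in `X` for which `Λ` has no real zero `≥ α`.
* If `σ ≥ 1` and `Λ` has no real zero `> σ` (for example `σ = 3/2`), then the Riemann hypothesis for `Λ`
  holds if and only if there are uncountably many base points `α > σ` for which more than one half of the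
  Li coefficients are nonnegative. -/
theorem result (a b : ℤ) (N : ℕ) [NeZero N] (f : CuspForm (Gamma0 N : Subgroup (GL (Fin 2) ℝ)) 2) (w : ℝ)
    (_ : 4 * a ^ 3 + 27 * b ^ 2 ≠ 0) (hf : IsFormOf a b N f w) :
    ∃ Λ : ℂ → ℂ, IsCompleted f Λ ∧ (∀ Λ', IsCompleted f Λ' → Λ' = Λ) ∧
      (∀ s : ℂ, Λ (2 - s) = (w : ℂ) * Λ s) ∧
      (∀ s : ℂ, 3 / 2 < s.re → Λ s ≠ 0) ∧
      (∃ X : Set ℝ, X.Countable ∧ ∀ α : ℝ, 1 < α → α ∉ X → (∀ x : ℝ, α ≤ x → Λ x ≠ 0) →
        LiProportions Λ 1 α) ∧
      ∀ σ : ℝ, 1 ≤ σ → (∀ x : ℝ, σ < x → Λ x ≠ 0) →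
        (OnLine Λ 1 ↔ ¬ {α : ℝ | σ < α ∧ MoreThanHalf {n | 0 ≤ li Λ 1 α n}}.Countable) := by
  have hf' : Pool.Agent.W169.HF.IsForm N f w :=
    { one := hf.one
      real := hf.real
      mul := hf.mul
      pow := hf.pow
      sign := hf.sign
      fricke := hf.fricke
      good := hf.good
      bad := fun p hp hpN => by
        have h1 : (1 : ℝ) ≤ Real.sqrt p := by
          rw [Real.one_le_sqrt]
          exact_mod_cast hp.one_le
        have h2 : ‖coef f p‖ ≤ 1 := by
          rcases hf.bad p hp hpN with h | h | h <;> simp [h]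
        exact h2.trans h1 }
  obtain ⟨Λ, hΛ, hfe, -, -⟩ := Pool.Agent.W174.HF.nf1 N f w hf'
  have hsf := Pool.Agent.N793.LI.sf_q hf' hΛ.1 ⟨3, fun s hs => hΛ.2 s (by linarith)⟩
  refine ⟨Λ, hΛ, fun Λ' h' => Pool.Agent.W169.HF.completed_unique h' hΛ, hfe, fun s hs h0 => ?_,
    ?_, fun σ hσ hx => Pool.Agent.N793.LI.uncountable_iff hsf hσ hx⟩
  · have h3 := hsf.strip (s - 1) (by
      show Λ (((1 : ℝ) : ℂ) + (s - 1)) = 0
      rw [Complex.ofReal_one, add_sub_cancel]
      exact h0)
    rw [sub_re, one_re, abs_le] at h3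
    linarith [h3.2]
  · obtain ⟨X, hX, h⟩ := Pool.Agent.N793.LI.half_concl hsf
    refine ⟨X, hX, fun α h1 h2 h3 => ?_⟩
    have h4 := h α h1 h2 h3
    have h5 := Pool.Agent.N793.LI.concl hsf h1 (h3 α le_rfl)
    exact ⟨h5.summable, h4.all, h4.half, h4.more, h4.weak, h4.upper, h4.small⟩

end Pool.Agent.N793.Shelf.LiHalfQ
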