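import Pool.Agent.N793.LI.InstH

/-!
# The signs of the Li coefficients of all Hasse-Weil L-functions

Let `X` be projective and smooth over `ℤ[1/N]` and let `Λ` be the completed L-function `Λ_A(i; X, s)`, for
even `i` multiplied by `((s - i/2) (s - i/2 - 1))^r` if it has poles of order `r` at `s = i/2`, `i/2 + 1`
(critical line `Re s = c`, `c = (i + 1)/2`).  For a real number `α > c` (the base point) with `Λ(α) ≠ 0` the
Li coefficients are

  `λ_n = ∑_ρ Re (1 - ((ρ - α) / (ρ + α - 2c))^n)`,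

the sum over all zeros of `Λ` with multiplicity (absolutely convergent; `α = c + 1/2` are the classical
ones).  As for the Riemann zeta function (Li, Bombieri-Lagarias, Lagarias; Sekatskii for arbitrary base
points) part (d) of the problem for `(X, i)` holds if and only if ALL `λ_n` are nonnegative.

We prove that few of them are sufficient.  Part (d) for `(X, i)` is equivalent to each of the following
statements:

* there are arbitrarily long runs of consecutive integers `n` with `λ_n ≥ 0` (for each length one run);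
* the same with `λ_n ≥ - e^(ε n)`, for every `ε > 0`, the runs beginning arbitrarily far out;
* for every `K` there are `K + 1` integers with mutual distances at least `K` all of whose differences `n`
  satisfy `λ_n ≥ 0`;
* `λ_(s-t) ≥ 0` for all `s > t` in `S`, where `S` is one arbitrary infinite set of integers, as sparse as one
  likes;
* `λ_(Q(m)) ≥ 0` for all `m`, where `Q` is one arbitrary integer polynomial with `Q(0) = 0` and positive
  leading coefficient, for example `λ_(m²) ≥ 0` for all `m`, or `λ_(d m) ≥ 0` for all `m`;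
* `λ_n ≥ - e^(ε n)` for all large `n` in `A`, for every `ε > 0`, where `A` is one arbitrary set of Bohr
  recurrence.

If part (d) fails, there is `R > 1` such that `λ_n ≤ - R^n / 4` for all large `n` in a Bohr
set `{n : |u^n - 1| < 1/2 for all u ∈ U}`, `U` a finite set of complex numbers of modulus one; and (if
`Λ` has no real zeros `≥ α`) each of the inequalities `λ_n ≤ - κ R^n` and `λ_n ≥ κ R^n` holds for a set of
`n` with bounded gaps.  In particular (under the same condition on `α`) the `n` with `λ_n ≥ 0` have bounded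
gaps, whether or not part (d) holds.

This is proved

* (I) for all `X` and `i` for which the continuation and the functional equation (parts (a), (b)) are known
  or assumed: `Λ` is entire, of finite order, and `Λ(s) = ± Λ(i + 1 - s)`;
* (II) without any hypothesis for `X = E^g`, `E : y² = x³ - x`, for all `g` and all odd `i < 2g`.

In (I) `X` enters through the following data (`Cohomology i`), which by Deligne's theorem have the
properties required: the polynomials `P_i(X(p), T) ∈ ℤ[T]` for `p ∤ N`, with constant term `1`, degree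
`b_i` and reciprocal roots of absolute value `p^{i/2}`; the Hodge numbers; and polynomials for the primes
`p ∣ N`, of degree at most `b_i` and with reciprocal roots at most `p^{(i+1)/2}` (`p^{i/2}` is expected by
the weight monodromy conjecture, and is known for example for curves, surfaces and abelian varieties).

Proof.  `w = (ρ - α)/(ρ + α - 2c)` has modulus one exactly on the line, and `w → 1` as `|ρ| → ∞`; so if
part (d) fails the maximum `R > 1` of `|w|` is attained for finitely many zeros, and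
`λ_n = - R^n ∑ Re (w/R)^n + o(R^n)` with a finite sum, which is an almost periodic function with positive
coefficients; the recurrence theorems are proved in `Pool.Agent.N793.LI` (pigeonhole principle; van der
Waerden's theorem and Weyl differencing for the polynomials).  The properties of the L-functions are taken
from the starting modules `Pool.Agent.TH839.UH` and `Pool.Agent.W355.HW`.
-/

set_option autoImplicit false

namespace Pool.Agent.N793.Shelf.LiRunsHW

open Complex Polynomial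
open scoped ComplexConjugate

/-! ### The data of a Hasse-Weil L-function -/

/-- The Betti number `b_i = 2 ∑_{p < q, p + q = i} h^{p,q} + h^{m,+} + h^{m,-}` (the last two for
`i = 2m`), where `hodge p = h^{p, i-p}`. -/
def bettiOf (i : ℕ) (hodge : ℕ → ℕ) (plus minus : ℕ) : ℕ :=
  2 * ∑ p ∈ Finset.range ((i + 1) / 2), hodge p + (if Even i then plus + minus else 0)

/-- What enters of the cohomology `H^i` of a projective smooth scheme `X` over `ℤ[1/N]` in the Hasse-Weil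
L-function `L(i; X, s)` and its gamma factor. -/
structure Cohomology (i : ℕ) where
  /-- the integer `N`: good reduction for `p ∤ N` -/
  N : ℕ
  /-- the Hodge numbers `hodge p = h^{p, i - p}` for `2 p < i` -/
  hodge : ℕ → ℕ
  /-- `h^{m,+}` for `i = 2m` -/
  plus : ℕ
  /-- `h^{m,-}` for `i = 2m` -/
  minus : ℕ
  /-- `P_i(X(p), T)` for `p ∤ N`, and `det(1 - Frob_p T | H^i(X)^{I_p})` for `p ∣ N` -/
  P : ℕ → ℤ[X]
  N_pos : 0 < N
  betti_pos : 0 < bettiOf i hodge plus minus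
  const : ∀ p : ℕ, p.Prime → (P p).coeff 0 = 1
  degree_good : ∀ p : ℕ, p.Prime → ¬ p ∣ N → (P p).natDegree = bettiOf i hodge plus minus
  degree_bad : ∀ p : ℕ, p.Prime → p ∣ N → (P p).natDegree ≤ bettiOf i hodge plus minus
  roots_good : ∀ p : ℕ, p.Prime → ¬ p ∣ N → ∀ z : ℂ, aeval z (P p) = 0 →
    ‖z‖ = (p : ℝ) ^ (-((i : ℝ) / 2))
  roots_bad : ∀ p : ℕ, p.Prime → p ∣ N → ∀ z : ℂ, aeval z (P p) = 0 →
    (p : ℝ) ^ (-(((i : ℝ) + 1) / 2)) ≤ ‖z‖

namespace Cohomology

variable {i : ℕ} (V : Cohomology i)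

/-- the Betti number `b_i` -/
def betti : ℕ := bettiOf i V.hodge V.plus V.minus

/-- the L-function (with the factors at the primes dividing `N`) in the half-plane of convergence -/
noncomputable def L (s : ℂ) : ℂ :=
  ∏' p : Nat.Primes, (aeval (((p : ℕ) : ℂ) ^ (-s)) (V.P p))⁻¹

/-- the gamma factor `Γ_i(s) = ∏_{p<q} Γ_ℂ(s-p)^{h^{p,q}} Γ_ℝ(s-m)^{h^{m,+}} Γ_ℝ(s-m+1)^{h^{m,-}}`, the last
two factors for `i = 2m` only -/
noncomputable def gammaFactor (s : ℂ) : ℂ :=
  (∏ p ∈ Finset.range ((i + 1) / 2), Gammaℂ (s - p) ^ V.hodge p) *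
    (if Even i then Gammaℝ (s - (i : ℂ) / 2) ^ V.plus * Gammaℝ (s - (i : ℂ) / 2 + 1) ^ V.minus
      else 1)

/-- `Λ` is the completed L-function `Λ_A(i; X, s)` (multiplied by `((s - i/2) (s - i/2 - 1))^r`), and it
has the properties (a), (b): it is entire, of finite order, and `Λ(s) = ± Λ(i + 1 - s)`. -/
structure Continued (A : ℝ) (r : ℕ) (Λ : ℂ → ℂ) : Prop where
  one_le : 1 ≤ A
  r_le : r ≤ V.betti
  entire : Differentiable ℂ Λ
  order : ∃ c ρ : ℝ, ∀ s : ℂ, ‖Λ s‖ ≤ Real.exp (c * (1 + ‖s‖) ^ ρ)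
  fe : ∃ ε : ℝ, (ε = 1 ∨ ε = -1) ∧ ∀ s : ℂ, Λ s = ε * Λ (i + 1 - s)
  eq : ∃ σ : ℝ, ∀ s : ℂ, σ ≤ s.re → Λ s = ((s - (i : ℂ) / 2) * (s - (i : ℂ) / 2 - 1)) ^ r *
    ((A : ℂ) ^ (s / 2) * V.gammaFactor s * V.L s)

end Cohomology

/-! ### The powers of the curve `y² = x³ - x` -/

/-- `a_p`: the prime `p` minus the number of the pairs `(x, y)` modulo `p` with `y² = x³ - x` -/
noncomputable def a (p : ℕ) : ℤ :=
  (p : ℤ) - (((Finset.range p ×ˢ Finset.range p).filter
    (fun xy : ℕ × ℕ => (p : ℤ) ∣ (xy.2 : ℤ) ^ 2 - ((xy.1 : ℤ) ^ 3 - (xy.1 : ℤ)))).card : ℤ)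

/-- `α p`, `β p` are the roots of `T² - a_p T + p` for every prime `p ≠ 2` -/
def FrobeniusRoots (α β : ℕ → ℂ) : Prop :=
  ∀ p : ℕ, p.Prime → p ≠ 2 → α p + β p = (a p : ℂ) ∧ α p * β p = p

/-- `P_i(X(p), p^{-s})` for `X = E^g`: the product of `(1 - α^j β^(i-j) p^(-s))` over `0 ≤ j ≤ i`
with the multiplicities `C(g, j) C(g, i-j)` -/
noncomputable def P (g i : ℕ) (α β : ℂ) (p : ℕ) (s : ℂ) : ℂ :=
  ∏ j ∈ Finset.range (i + 1),
    (1 - α ^ j * β ^ (i - j) * (p : ℂ) ^ (-s)) ^ (g.choose j * g.choose (i - j))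

/-- `L` is the continuation of `L(i; E^g, s) = ∏_{p ≠ 2} P_i(X(p), p^{-s})⁻¹` to an entire
function -/
def IsHasseWeil (g i : ℕ) (L : ℂ → ℂ) : Prop :=
  Differentiable ℂ L ∧ ∀ α β : ℕ → ℂ, FrobeniusRoots α β → ∀ s : ℂ, 1 + (i : ℝ) / 2 < s.re →
    HasProd (fun p : {p : ℕ // p.Prime ∧ p ≠ 2} => (P g i (α p) (β p) p s)⁻¹) (L s)

/-- the conductor `A = 32^N`, `N = ∑_{p < q, p + q = i} h^{p,q}`, `h^{p,q} = C(g, p) C(g, q)` -/
noncomputable def A (g i : ℕ) : ℝ :=
  32 ^ (∑ p ∈ Finset.range ((i + 1) / 2), g.choose p * g.choose (i - p))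

/-- the Gamma factor `Γ_i(s) = ∏_{p < q, p + q = i} Γ_ℂ(s - p)^{h^{p,q}}`, `h^{p,q} = C(g, p) C(g, q)`;
here `Γ_ℂ(s) = Γ_ℝ(s) Γ_ℝ(s + 1)` -/
noncomputable def gammaFactor (g i : ℕ) (s : ℂ) : ℂ :=
  ∏ p ∈ Finset.range ((i + 1) / 2), Gammaℂ (s - p) ^ (g.choose p * g.choose (i - p))

/-- `Λ` is entire and `Λ(s) = A^((s - i/2)/2) Γ_i(s) L(s)` for `Re s > (i - 1)/2` -/
def IsCompleted (g i : ℕ) (L Λ : ℂ → ℂ) : Prop :=
  Differentiable ℂ Λ ∧ ∀ s : ℂ, ((i : ℝ) - 1) / 2 < s.re →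
    Λ s = (A g i : ℂ) ^ ((s - (i : ℂ) / 2) / 2) * gammaFactor g i s * L s

/-! ### The Li coefficients -/

/-- The `n`-th Li coefficient of `Λ` with the base point `α`, for the critical line `Re s = c`: the sum
of `Re (1 - ((ρ - α)/(ρ + α - 2c))^n)` over the zeros `ρ` of `Λ` with multiplicity. -/
noncomputable def li (Λ : ℂ → ℂ) (c α : ℝ) (n : ℕ) : ℝ :=
  ∑' ρ : ℂ, (analyticOrderNatAt Λ ρ : ℝ) * (1 - (((ρ - α) / (ρ + α - 2 * c)) ^ n).re)

/-- The Riemann hypothesis: all zeros of `Λ` are on the line `Re s = c`. -/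
def OnLine (Λ : ℂ → ℂ) (c : ℝ) : Prop := ∀ s : ℂ, Λ s = 0 → s.re = c

/-- `A` is a set of Bohr recurrence: for all finitely many complex numbers `u` of modulus one, the powers
`u ^ n` are near `1` at the same time for arbitrarily large `n ∈ A`. -/
def Recurrent (A : Set ℕ) : Prop := ∀ (U : Finset ℂ) (ε : ℝ) (N : ℕ), (∀ u ∈ U, ‖u‖ = 1) → 0 < ε →
  ∃ n ∈ A, N ≤ n ∧ ∀ u ∈ U, ‖u ^ n - 1‖ < ε

/-- The statements on the signs of the Li coefficients with the base point `α`. -/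
structure LiSigns (Λ : ℂ → ℂ) (c α : ℝ) : Prop where
  /-- absolute convergence -/
  summable : ∀ n : ℕ, Summable fun ρ : ℂ =>
    (analyticOrderNatAt Λ ρ : ℝ) * (1 - (((ρ - α) / (ρ + α - 2 * c)) ^ n).re)
  /-- arbitrarily long runs -/
  runs : OnLine Λ c ↔ ∀ L : ℕ, ∃ N : ℕ, ∀ n, N < n → n ≤ N + L → 0 ≤ li Λ c α n
  /-- arbitrarily long runs of coefficients which are not exponentially negative -/
  weak : OnLine Λ c ↔ ∀ ε : ℝ, 0 < ε → ∀ L : ℕ, ∃ N : ℕ, L ≤ N ∧ ∀ n, N < n → n ≤ N + L →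
    -Real.exp (ε * n) ≤ li Λ c α n
  /-- finitely many integers with large gaps, and their differences -/
  gaps : OnLine Λ c ↔ ∀ K : ℕ, ∃ s : ℕ → ℕ, (∀ i, s i + K ≤ s (i + 1)) ∧
    ∀ i j, i < j → j ≤ K → 0 ≤ li Λ c α (s j - s i)
  /-- the differences of one infinite set -/
  differences : ∀ S : Set ℕ, S.Infinite →
    (OnLine Λ c ↔ ∀ s ∈ S, ∀ t ∈ S, t < s → 0 ≤ li Λ c α (s - t))
  /-- the values of one polynomial without constant term -/
  polynomial : ∀ Q : ℤ[X], Q.coeff 0 = 0 → 0 < Q.leadingCoeff →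
    (OnLine Λ c ↔ ∀ m n : ℕ, 1 ≤ m → (n : ℤ) = Q.eval (m : ℤ) → 0 ≤ li Λ c α n)
  /-- one set of Bohr recurrence -/
  recurrent : ∀ A : Set ℕ, Recurrent A →
    (OnLine Λ c ↔ ∀ ε : ℝ, 0 < ε → ∃ N : ℕ, ∀ n ∈ A, N ≤ n → -Real.exp (ε * n) ≤ li Λ c α n)
  /-- if the Riemann hypothesis fails: exponentially negative on a Bohr set -/
  bohr : ¬ OnLine Λ c → ∃ R : ℝ, 1 < R ∧ ∃ U : Finset ℂ, (∀ u ∈ U, ‖u‖ = 1) ∧
    ∃ N : ℕ, ∀ n, N ≤ n → (∀ u ∈ U, ‖u ^ n - 1‖ < 1 / 2) → li Λ c α n ≤ -(R ^ n / 4)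
  /-- if the Riemann hypothesis fails: both signs with bounded gaps -/
  both : (∀ x : ℝ, α ≤ x → Λ x ≠ 0) → ¬ OnLine Λ c → ∃ R : ℝ, 1 < R ∧ ∃ κ : ℝ, 0 < κ ∧
    ∃ L N₀ : ℕ, ∀ N : ℕ, N₀ ≤ N →
      (∃ n, N < n ∧ n ≤ N + L ∧ li Λ c α n ≤ -(κ * R ^ n)) ∧
      (∃ n, N < n ∧ n ≤ N + L ∧ κ * R ^ n ≤ li Λ c α n)
  /-- unconditionally: nonnegative with bounded gaps -/
  unconditional : (∀ x : ℝ, α ≤ x → Λ x ≠ 0) → ∃ L : ℕ, ∀ N : ℕ, ∃ n, N < n ∧ n ≤ N + L ∧
    0 ≤ li Λ c α n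

/-- **Main theorem.**  The statements `LiSigns` for the critical line `Re s = (i + 1)/2` hold for every
base point `α > (i + 1)/2` with `Λ(α) ≠ 0`

* (I) for the L-function of every `X` in every degree `i`, if it has the continuation and the functional
  equation;
* (II) for `X = E^g`, `g` and `i` arbitrary, `i < 2g` odd, unconditionally; and here `Λ(s) ≠ 0` for
  `Re s > i/2 + 1`. -/
theorem result :
    (∀ (i : ℕ) (V : Cohomology i) (A : ℝ) (r : ℕ) (Λ : ℂ → ℂ), V.Continued A r Λ →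
      ∀ α : ℝ, ((i : ℝ) + 1) / 2 < α → Λ α ≠ 0 → LiSigns Λ (((i : ℝ) + 1) / 2) α) ∧
    (∀ g i : ℕ, Odd i → i < 2 * g →
      ∃ L Λ : ℂ → ℂ, IsHasseWeil g i L ∧ IsCompleted g i L Λ ∧
        (∀ s : ℂ, Λ (conj s) = conj (Λ s)) ∧
        (∃ r : ℕ, r ≤ 1 ∧ ∀ s : ℂ, Λ (i + 1 - s) = (-1) ^ r * Λ s) ∧
        (∀ s : ℂ, (i : ℝ) / 2 + 1 < s.re → Λ s ≠ 0) ∧
        ∀ α : ℝ, ((i : ℝ) + 1) / 2 < α → Λ α ≠ 0 → LiSigns Λ (((i : ℝ) + 1) / 2) α) := by
  refine ⟨fun i V A r Λ h α hα1 hα2 => ?_, fun g i hi hg => ?_⟩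
  · have hd : ∀ p, p.Prime → (V.P p).natDegree ≤ bettiOf i V.hodge V.plus V.minus := fun p hp => by
      by_cases hpN : p ∣ V.N
      · exact V.degree_bad p hp hpN
      · exact (V.degree_good p hp hpN).le
    have hr : ∀ p : ℕ, p.Prime → ∀ z : ℂ, aeval z (V.P p) = 0 →
        (p : ℝ) ^ (-(((i : ℝ) + 1) / 2)) ≤ ‖z‖ := fun p hp z hz => by
      by_cases hpN : p ∣ V.N
      · exact V.roots_bad p hp hpN z hz
      · rw [V.roots_good p hp hpN z hz]
        exact Real.rpow_le_rpow_of_exponent_le (by exact_mod_cast hp.one_le) (by linarith)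
    obtain ⟨κ, m, a', β, hκ, hW⟩ := Pool.Agent.N793.LI.hw_of (i := i) (h := V.hodge) (a := V.plus)
      (b := V.minus) (P := V.P) V.betti_pos V.const hd hr h.one_le h.r_le h.entire h.order h.fe h.eq
    have h := Pool.Agent.N793.LI.concl (Pool.Agent.N793.LI.sf_hw hκ hW) hα1 hα2
    exact ⟨h.summable, h.runs, h.weak, h.gaps, h.diff, h.poly, h.recur, h.bohr, h.both, h.uncond⟩
  · obtain ⟨m, rfl⟩ := hi
    obtain ⟨Λ, h1, h2, h3, h4, hsf⟩ := Pool.Agent.N793.LI.pow_sf g m (by omega)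
    refine ⟨fun s => Pool.Agent.W355.HW.LL0 g m (s - ((2 * m + 1 : ℕ) : ℂ) / 2), Λ,
      ⟨(Pool.Agent.W355.HW.LL0_diff g m).comp (differentiable_id.sub_const _),
        fun α β hαβ s hs => Pool.Agent.W355.HW.LL0_prod g m α β hαβ s hs⟩, ⟨h1, h2⟩, h3, h4,
      fun s hs h0 => ?_, fun α hα1 hα2 => ?_⟩
    · have h5 := hsf.strip (s - (((((2 * m + 1 : ℕ) : ℝ) + 1) / 2 : ℝ) : ℂ)) (by
        simp only [add_sub_cancel]
        exact h0)
      rw [sub_re, ofReal_re, abs_le] at h5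
      linarith [h5.2]
    · have h := Pool.Agent.N793.LI.concl hsf hα1 hα2
      exact ⟨h.summable, h.runs, h.weak, h.gaps, h.diff, h.poly, h.recur, h.bohr, h.both, h.uncond⟩

end Pool.Agent.N793.Shelf.LiRunsHW
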