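import Pool.Agent.N793.LI.Inst
import Pool.Agent.N793.LI.InstK
import Pool.Agent.TH839.UH.ECK

/-!
# The signs of the Li coefficients of elliptic curves over number fields

Let `E` be an elliptic curve over a number field `K` and `Λ` its completed L-function (critical line
`Re s = 1`).  For a real number `α > 1` (the base point) with `Λ(α) ≠ 0` the Li coefficients are

  `λ_n = ∑_ρ Re (1 - ((ρ - α) / (ρ + α - 2))^n)`,

the sum over all zeros of `Λ` with multiplicity (absolutely convergent; `α = 3/2` are the classical ones).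
By Li, Bombieri-Lagarias, Lagarias (and Sekatskii for arbitrary base points) the Riemann hypothesis for
`L(E/K, s)` holds if and only if ALL `λ_n` are nonnegative.

We prove that few of them are sufficient.  The Riemann hypothesis for `L(E/K, s)` is equivalent to each of
the following statements:

* there are arbitrarily long runs of consecutive integers `n` with `λ_n ≥ 0` (for each length one run);
* the same with `λ_n ≥ - e^(ε n)`, for every `ε > 0`, the runs beginning arbitrarily far out;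
* for every `k` there are `k + 1` integers with mutual distances at least `k` all of whose differences `n`
  satisfy `λ_n ≥ 0`;
* `λ_(s-t) ≥ 0` for all `s > t` in `S`, where `S` is one arbitrary infinite set of integers, as sparse as one
  likes;
* `λ_(Q(m)) ≥ 0` for all `m`, where `Q` is one arbitrary integer polynomial with `Q(0) = 0` and positive
  leading coefficient, for example `λ_(m²) ≥ 0` for all `m`, or `λ_(d m) ≥ 0` for all `m`;
* `λ_n ≥ - e^(ε n)` for all large `n` in `A`, for every `ε > 0`, where `A` is one arbitrary set of Bohr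
  recurrence.

If the Riemann hypothesis fails, there is `R > 1` such that `λ_n ≤ - R^n / 4` for all large `n` in a Bohr
set `{n : |u^n - 1| < 1/2 for all u ∈ U}`, `U` a finite set of complex numbers of modulus one; and (if
`Λ` has no real zeros `≥ α`) each of the inequalities `λ_n ≤ - κ R^n` and `λ_n ≥ κ R^n` holds for a set of
`n` with bounded gaps.  In particular (under the same condition on `α`) the `n` with `λ_n ≥ 0` have bounded
gaps, whether or not the Riemann hypothesis holds.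

This is proved

* (I) for all elliptic curves over all number fields whose L-function has the properties conjectured by
  Hasse and Weil (`Λ` is entire, of finite order, and `Λ(s) = ± Λ(2 - s)`);
* (II) without any hypothesis for all `E/ℚ` of conductor `N` and all abelian number fields `K` of
  conductor prime to `N` (given by their groups `G` of Dirichlet characters).

Proof.  `w = (ρ - α)/(ρ + α - 2)` has modulus one exactly on the line, and `w → 1` as `|ρ| → ∞`; so if the
Riemann hypothesis fails the maximum `R > 1` of `|w|` is attained for finitely many zeros, and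
`λ_n = - R^n ∑ Re (w/R)^n + o(R^n)` with a finite sum, which is an almost periodic function with positive
coefficients; the recurrence theorems are proved in `Pool.Agent.N793.LI` (pigeonhole principle; van der
Waerden's theorem and Weyl differencing for the polynomials).  The properties of the L-functions are taken
from the starting modules `Pool.Agent.TH839.UH` and `Pool.Agent.W355.UN`.
-/

set_option autoImplicit false

open Complex UpperHalfPlane MatrixGroups CongruenceSubgroup NumberField IsDedekindDomain Polynomial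
open scoped ComplexConjugate

namespace Pool.Agent.N793.Shelf.LiRunsK

/-! ### Hasse-Weil L-functions of elliptic curves over number fields -/

/-- `W v` is, for every finite place `v`, an integral model of `E` with discriminant minimal at
`v`. -/
def MinimalModels {K : Type} [Field K] [NumberField K] (E : WeierstrassCurve K)
    (W : HeightOneSpectrum (𝓞 K) → WeierstrassCurve (𝓞 K)) : Prop :=
  ∀ v : HeightOneSpectrum (𝓞 K),
    (∃ C : WeierstrassCurve.VariableChange K, C • (W v).map (algebraMap (𝓞 K) K) = E) ∧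
    ∀ W' : WeierstrassCurve (𝓞 K),
      (∃ C : WeierstrassCurve.VariableChange K, C • W'.map (algebraMap (𝓞 K) K) = E) →
      ∀ n : ℕ, (W v).Δ ∈ v.asIdeal ^ n → W'.Δ ∈ v.asIdeal ^ n

open Classical in
/-- The Euler factor at `v`, `(1 - a_v Nv^{-s} + Nv^{1-2s})⁻¹` if the reduction at `v` is good and
`(1 - a_v Nv^{-s})⁻¹` if it is bad, where `a_v` is `Nv` minus the number of affine points of the
reduction of `W v`. -/
noncomputable def localFactor {K : Type} [Field K] [NumberField K]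
    (W : HeightOneSpectrum (𝓞 K) → WeierstrassCurve (𝓞 K)) (v : HeightOneSpectrum (𝓞 K))
    (s : ℂ) : ℂ :=
  (1 - ((Ideal.absNorm v.asIdeal : ℂ)
        - (Nat.card {xy : (𝓞 K ⧸ v.asIdeal) × (𝓞 K ⧸ v.asIdeal) //
            ((W v).map (Ideal.Quotient.mk v.asIdeal)).toAffine.Equation xy.1 xy.2} : ℂ))
        * (Ideal.absNorm v.asIdeal : ℂ) ^ (-s)
    + (if (W v).Δ ∈ v.asIdeal then 0 else (Ideal.absNorm v.asIdeal : ℂ))
        * (Ideal.absNorm v.asIdeal : ℂ) ^ (-2 * s))⁻¹

/-- The `L`-function `L(E/K, s)` in the half-plane of convergence, as the Euler product over all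
finite places. -/
noncomputable def LSeries {K : Type} [Field K] [NumberField K]
    (W : HeightOneSpectrum (𝓞 K) → WeierstrassCurve (𝓞 K)) (s : ℂ) : ℂ :=
  ∏' v : HeightOneSpectrum (𝓞 K), localFactor W v s

/-- `Λ` is the completed L-function `A^(s/2) ((2π)^(-s) Γ(s))^[K : ℚ] L(E/K, s)`, and it has the
properties conjectured by Hasse and Weil: it is entire, of finite order, and `Λ(s) = ± Λ(2 - s)`. -/
structure HasseWeil {K : Type} [Field K] [NumberField K]
    (W : HeightOneSpectrum (𝓞 K) → WeierstrassCurve (𝓞 K)) (A : ℝ) (Λ : ℂ → ℂ) : Prop where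
  one_le : 1 ≤ A
  entire : Differentiable ℂ Λ
  order : ∃ c ρ : ℝ, ∀ s : ℂ, ‖Λ s‖ ≤ Real.exp (c * (1 + ‖s‖) ^ ρ)
  fe : ∃ w : ℝ, (w = 1 ∨ w = -1) ∧ ∀ s : ℂ, Λ s = w * Λ (2 - s)
  eq : ∃ σ : ℝ, ∀ s : ℂ, σ ≤ s.re → Λ s = (A : ℂ) ^ (s / 2) *
    ((2 * (Real.pi : ℂ)) ^ (-s) * Gamma s) ^ Module.finrank ℚ K * LSeries W s

/-! ### Elliptic curves over `ℚ` and abelian number fields -/

/-- The coefficient `a_p` of `E : y² = x³ + a x + b` at a prime `p ∤ 2 (4a³ + 27b²)`: `p` minus the
number of pairs `(x, y)` modulo `p` with `y² ≡ x³ + a x + b (mod p)`. -/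
noncomputable def ap (a b : ℤ) (p : ℕ) : ℤ :=
  (p : ℤ) - (((Finset.range p ×ˢ Finset.range p).filter
    (fun xy : ℕ × ℕ => (p : ℤ) ∣ (xy.2 : ℤ) ^ 2 -
      ((xy.1 : ℤ) ^ 3 + a * (xy.1 : ℤ) + b))).card : ℤ)

/-- The `n`-th Fourier coefficient of `f`. -/
noncomputable def coef {N : ℕ} (f : CuspForm (Gamma0 N : Subgroup (GL (Fin 2) ℝ)) 2) (n : ℕ) : ℂ :=
  (qExpansion 1 f).coeff n

/-- `f ∈ S_2(Γ₀(N))` is the newform of the elliptic curve `E : y² = x³ + a x + b` of conductor `N` and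
root number `w`: the Fourier coefficients `c(n)` of `f` are real with `c(1) = 1`, they satisfy the
Hecke relations `c(mn) = c(m) c(n)` for coprime `m`, `n` and `c(p^(j+2)) = c(p) c(p^(j+1)) - p c(p^j)`
(without the last term if `p ∣ N`), `f(-1/(Nτ)) = -w N τ² f(τ)`, `c(p) = a_p(E)` for all primes
`p ∤ 2 (4a³ + 27b²)`, `|c(p)| ≤ 2 √p` for all `p ∤ N` (Hasse) and `c(p) = 0, 1, -1` for `p ∣ N`. -/
structure IsFormOf (a b : ℤ) (N : ℕ) (f : CuspForm (Gamma0 N : Subgroup (GL (Fin 2) ℝ)) 2) (w : ℝ) :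
    Prop where
  one : coef f 1 = 1
  real : ∀ n, (coef f n).im = 0
  mul : ∀ m n : ℕ, Nat.Coprime m n → coef f (m * n) = coef f m * coef f n
  pow : ∀ p j : ℕ, p.Prime → coef f (p ^ (j + 2)) = coef f p * coef f (p ^ (j + 1)) -
      (if p ∣ N then 0 else (p : ℂ) * coef f (p ^ j))
  sign : w = 1 ∨ w = -1
  fricke : ∀ τ τ' : ℍ, (τ' : ℂ) * ((N : ℂ) * (τ : ℂ)) = -1 →
    f τ' = -(w : ℂ) * (N : ℂ) * (τ : ℂ) ^ 2 * f τ
  points : ∀ p : ℕ, p.Prime → ¬ (p : ℤ) ∣ 2 * (4 * a ^ 3 + 27 * b ^ 2) → coef f p = (ap a b p : ℂ)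
  good : ∀ p : ℕ, p.Prime → ¬ p ∣ N → ‖coef f p‖ ≤ 2 * Real.sqrt p
  bad : ∀ p : ℕ, p.Prime → p ∣ N → coef f p = 0 ∨ coef f p = 1 ∨ coef f p = -1

/-- The completed L-function of the twist of `E` by `χ` modulo `q`, for `Re s > 3/2`:
`(√N q / 2π)^s Γ(s) ∑ c(n) χ(n) n^(-s)`. -/
noncomputable def twist {N : ℕ} (f : CuspForm (Gamma0 N : Subgroup (GL (Fin 2) ℝ)) 2) {q : ℕ}
    (χ : DirichletCharacter ℂ q) (s : ℂ) : ℂ :=
  ((Real.sqrt N * q / (2 * Real.pi) : ℝ) : ℂ) ^ s * Complex.Gamma s *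
    ∑' n : ℕ, coef f (n + 1) * χ ((n + 1 : ℕ) : ZMod q) * ((n + 1 : ℕ) : ℂ) ^ (-s)

section
variable {M : ℕ} (G : Subgroup (DirichletCharacter ℂ M)) [Fintype G]

/-- `Λ = Λ(E/K, s)`, where `K` is the abelian number field with the group `G` of Dirichlet
characters: `Λ` is entire and, for large real part, it is the product over `χ` in `G` of the completed
L-functions of the twists of `E` by the primitive character associated with `χ`. -/
def IsCompleted {N : ℕ} (f : CuspForm (Gamma0 N : Subgroup (GL (Fin 2) ℝ)) 2) (Λ : ℂ → ℂ) : Prop :=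
  Differentiable ℂ Λ ∧ ∃ σ : ℝ, ∀ s : ℂ, σ ≤ s.re →
    Λ s = ∏ χ : G, twist f (χ : DirichletCharacter ℂ M).primitiveCharacter s

end

/-! ### The Li coefficients -/

/-- The `n`-th Li coefficient of `Λ` with the base point `α`, for the critical line `Re s = c`: the sum
of `Re (1 - ((ρ - α)/(ρ + α - 2c))^n)` over the zeros `ρ` of `Λ` with multiplicity. -/
noncomputable def li (Λ : ℂ → ℂ) (c α : ℝ) (n : ℕ) : ℝ :=
  ∑' ρ : ℂ, (analyticOrderNatAt Λ ρ : ℝ) * (1 - (((ρ - α) / (ρ + α - 2 * c)) ^ n).re)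

/-- The Riemann hypothesis: all zeros of `Λ` are on the line `Re s = c`. -/
def OnLine (Λ : ℂ → ℂ) (c : ℝ) : Prop := ∀ s : ℂ, Λ s = 0 → s.re = c

/-- `A` is a set of Bohr recurrence: for all finitely many complex numbers `u` of modulus one, the powers
`u ^ n` are near `1` at the same time for arbitrarily large `n ∈ A`. -/
def Recurrent (A : Set ℕ) : Prop := ∀ (U : Finset ℂ) (ε : ℝ) (N : ℕ), (∀ u ∈ U, ‖u‖ = 1) → 0 < ε →
  ∃ n ∈ A, N ≤ n ∧ ∀ u ∈ U, ‖u ^ n - 1‖ < ε

/-- The statements on the signs of the Li coefficients with the base point `α`. -/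
structure LiSigns (Λ : ℂ → ℂ) (c α : ℝ) : Prop where
  /-- absolute convergence -/
  summable : ∀ n : ℕ, Summable fun ρ : ℂ =>
    (analyticOrderNatAt Λ ρ : ℝ) * (1 - (((ρ - α) / (ρ + α - 2 * c)) ^ n).re)
  /-- arbitrarily long runs -/
  runs : OnLine Λ c ↔ ∀ L : ℕ, ∃ N : ℕ, ∀ n, N < n → n ≤ N + L → 0 ≤ li Λ c α n
  /-- arbitrarily long runs of coefficients which are not exponentially negative -/
  weak : OnLine Λ c ↔ ∀ ε : ℝ, 0 < ε → ∀ L : ℕ, ∃ N : ℕ, L ≤ N ∧ ∀ n, N < n → n ≤ N + L →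
    -Real.exp (ε * n) ≤ li Λ c α n
  /-- finitely many integers with large gaps, and their differences -/
  gaps : OnLine Λ c ↔ ∀ K : ℕ, ∃ s : ℕ → ℕ, (∀ i, s i + K ≤ s (i + 1)) ∧
    ∀ i j, i < j → j ≤ K → 0 ≤ li Λ c α (s j - s i)
  /-- the differences of one infinite set -/
  differences : ∀ S : Set ℕ, S.Infinite →
    (OnLine Λ c ↔ ∀ s ∈ S, ∀ t ∈ S, t < s → 0 ≤ li Λ c α (s - t))
  /-- the values of one polynomial without constant term -/
  polynomial : ∀ Q : ℤ[X], Q.coeff 0 = 0 → 0 < Q.leadingCoeff →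
    (OnLine Λ c ↔ ∀ m n : ℕ, 1 ≤ m → (n : ℤ) = Q.eval (m : ℤ) → 0 ≤ li Λ c α n)
  /-- one set of Bohr recurrence -/
  recurrent : ∀ A : Set ℕ, Recurrent A →
    (OnLine Λ c ↔ ∀ ε : ℝ, 0 < ε → ∃ N : ℕ, ∀ n ∈ A, N ≤ n → -Real.exp (ε * n) ≤ li Λ c α n)
  /-- if the Riemann hypothesis fails: exponentially negative on a Bohr set -/
  bohr : ¬ OnLine Λ c → ∃ R : ℝ, 1 < R ∧ ∃ U : Finset ℂ, (∀ u ∈ U, ‖u‖ = 1) ∧
    ∃ N : ℕ, ∀ n, N ≤ n → (∀ u ∈ U, ‖u ^ n - 1‖ < 1 / 2) → li Λ c α n ≤ -(R ^ n / 4)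
  /-- if the Riemann hypothesis fails: both signs with bounded gaps -/
  both : (∀ x : ℝ, α ≤ x → Λ x ≠ 0) → ¬ OnLine Λ c → ∃ R : ℝ, 1 < R ∧ ∃ κ : ℝ, 0 < κ ∧
    ∃ L N₀ : ℕ, ∀ N : ℕ, N₀ ≤ N →
      (∃ n, N < n ∧ n ≤ N + L ∧ li Λ c α n ≤ -(κ * R ^ n)) ∧
      (∃ n, N < n ∧ n ≤ N + L ∧ κ * R ^ n ≤ li Λ c α n)
  /-- unconditionally: nonnegative with bounded gaps -/
  unconditional : (∀ x : ℝ, α ≤ x → Λ x ≠ 0) → ∃ L : ℕ, ∀ N : ℕ, ∃ n, N < n ∧ n ≤ N + L ∧
    0 ≤ li Λ c α n

/-- **Main theorem.**  The statements `LiSigns` hold for every base point `α > 1` with `Λ(α) ≠ 0`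

* (I) for every elliptic curve over every number field for which the conjecture of Hasse and Weil
  holds;
* (II) for every elliptic curve over `ℚ` of conductor `N` and every abelian number field of conductor
  prime to `N` (group of characters `G` modulo `M`, degree `Fintype.card G`), unconditionally; and here
  `Λ(s) ≠ 0` for `Re s > 3/2`. -/
theorem result :
    (∀ (K : Type) [Field K] [NumberField K] (E : WeierstrassCurve K) [E.IsElliptic]
      (W : HeightOneSpectrum (𝓞 K) → WeierstrassCurve (𝓞 K)), MinimalModels E W →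
      ∀ (A : ℝ) (Λ : ℂ → ℂ), HasseWeil W A Λ →
      ∀ α : ℝ, 1 < α → Λ α ≠ 0 → LiSigns Λ 1 α) ∧
    (∀ (a b : ℤ) (N : ℕ) [NeZero N] (f : CuspForm (Gamma0 N : Subgroup (GL (Fin 2) ℝ)) 2) (w : ℝ),
      4 * a ^ 3 + 27 * b ^ 2 ≠ 0 → IsFormOf a b N f w →
      ∀ (M : ℕ) [NeZero M] (G : Subgroup (DirichletCharacter ℂ M)) [Fintype G], Nat.Coprime M N →
      ∃ Λ : ℂ → ℂ, IsCompleted G f Λ ∧ (∀ Λ' : ℂ → ℂ, IsCompleted G f Λ' → Λ' = Λ) ∧
        (∃ W : ℂ, ‖W‖ = 1 ∧ ∀ s : ℂ, Λ (2 - s) = W * conj (Λ (conj s))) ∧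
        (∀ s : ℂ, 3 / 2 < s.re → Λ s ≠ 0) ∧
        ∀ α : ℝ, 1 < α → Λ α ≠ 0 → LiSigns Λ 1 α) := by
  refine ⟨?_, ?_⟩
  · intro K _ _ E _ W _ A Λ h α h1 h2
    classical
    have hk : Pool.Agent.TH839.UH.KL
        (fun v : HeightOneSpectrum (𝓞 K) => ((Ideal.absNorm v.asIdeal : ℂ)
          - (Nat.card {xy : (𝓞 K ⧸ v.asIdeal) × (𝓞 K ⧸ v.asIdeal) //
            ((W v).map (Ideal.Quotient.mk v.asIdeal)).toAffine.Equation xy.1 xy.2} : ℂ)))
        (fun v => if (W v).Δ ∈ v.asIdeal then 0 else (Ideal.absNorm v.asIdeal : ℂ)) A Λ := by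
      refine ⟨fun v => Pool.Agent.TH839.UH.trace_le v _, fun v => ?_, fun v => ?_, fun v => ?_,
        h.one_le, h.entire, h.order, h.fe, ?_⟩
      · show ‖(if (W v).Δ ∈ v.asIdeal then 0 else (Ideal.absNorm v.asIdeal : ℂ))‖ ≤
          ((Ideal.absNorm v.asIdeal : ℕ) : ℝ)
        split_ifs
        · rw [norm_zero]
          exact Nat.cast_nonneg _
        · rw [Complex.norm_natCast]
      · show conj ((Ideal.absNorm v.asIdeal : ℂ) - ((_ : ℕ) : ℂ)) = _
        rw [map_sub, Complex.conj_natCast, Complex.conj_natCast]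
      · show conj (if (W v).Δ ∈ v.asIdeal then 0 else (Ideal.absNorm v.asIdeal : ℂ)) = _
        split_ifs
        · rw [map_zero]
        · rw [Complex.conj_natCast]
      · obtain ⟨σ, hσ⟩ := h.eq
        refine ⟨σ, fun s hs => ?_⟩
        rw [hσ s hs]
        congr 1
        unfold LSeries Pool.Agent.TH839.UH.EL
        refine tprod_congr fun v => ?_
        unfold localFactor Pool.Agent.TH839.UH.NF.gv Pool.Agent.H921R2.TatePole.nm
        congr 1
        ring
    have h := Pool.Agent.N793.LI.concl (Pool.Agent.N793.LI.sf_kl hk) h1 h2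
    exact ⟨h.summable, h.runs, h.weak, h.gaps, h.diff, h.poly, h.recur, h.bohr, h.both, h.uncond⟩
  · intro a b N _ f w _ hf M _ G _ hco
    have hf' : Pool.Agent.W169.HF.IsForm N f w :=
      { one := hf.one
        real := hf.real
        mul := hf.mul
        pow := hf.pow
        sign := hf.sign
        fricke := hf.fricke
        good := hf.good
        bad := fun p hp hpN => by
          have h1 : (1 : ℝ) ≤ Real.sqrt p := by
            rw [Real.one_le_sqrt]
            exact_mod_cast hp.one_le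
          have h2 : ‖coef f p‖ ≤ 1 := by
            rcases hf.bad p hp hpN with h | h | h <;> simp [h]
          exact h2.trans h1 }
    obtain ⟨Λ, h1, h2, h3⟩ := Pool.Agent.N793.LI.exists_ab G hf' hco
    have hsf := Pool.Agent.N793.LI.sf_ab G hf' hco h1 h2
    refine ⟨Λ, ⟨h1, h2⟩, fun Λ' h' => Pool.Agent.W355.UN.Pk.uniq h1 h'.1 h2 h'.2, h3, fun s hs h0 => ?_,
      fun α hα1 hα2 => ?_⟩
    · have h3 := hsf.strip (s - 1) (by
        show Λ (((1 : ℝ) : ℂ) + (s - 1)) = 0
        rw [Complex.ofReal_one, add_sub_cancel]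
        exact h0)
      rw [sub_re, one_re, abs_le] at h3
      linarith [h3.2]
    · have h := Pool.Agent.N793.LI.concl hsf hα1 hα2
      exact ⟨h.summable, h.runs, h.weak, h.gaps, h.diff, h.poly, h.recur, h.bohr, h.both, h.uncond⟩

end Pool.Agent.N793.Shelf.LiRunsK
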