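import Pool.Agent.N793.LI.Inst
import Pool.Agent.W174.HF.NF1
import Pool.Agent.W169.HF.EC

/-!
# The signs of the Li coefficients of elliptic curves: runs, sparse sequences, and Bohr sets

Let `E : y² = x³ + a x + b` be an elliptic curve over `ℚ`, `Λ` its completed L-function (critical line
`Re s = 1`).  For a real number `α > 1` (the base point) with `Λ(α) ≠ 0` the Li coefficients are

  `λ_n = ∑_ρ Re (1 - ((ρ - α) / (ρ + α - 2))^n)`,

the sum over all zeros of `Λ` with multiplicity (absolutely convergent; `α = 3/2` are the classical ones).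
By Li, Bombieri-Lagarias, Lagarias (and Sekatskii for arbitrary base points) the Riemann hypothesis for
`L(E, s)` holds if and only if ALL `λ_n` are nonnegative.

We prove that few of them are sufficient.  The Riemann hypothesis for `L(E, s)` is equivalent to each of
the following statements:

* there are arbitrarily long runs of consecutive integers `n` with `λ_n ≥ 0` (for each length one run);
* the same with `λ_n ≥ - e^(ε n)`, for every `ε > 0`, the runs beginning arbitrarily far out;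
* for every `K` there are `K + 1` integers with mutual distances at least `K` all of whose differences `n`
  satisfy `λ_n ≥ 0`;
* `λ_(s-t) ≥ 0` for all `s > t` in `S`, where `S` is one arbitrary infinite set of integers, as sparse as one
  likes;
* `λ_(Q(m)) ≥ 0` for all `m`, where `Q` is one arbitrary integer polynomial with `Q(0) = 0` and positive
  leading coefficient, for example `λ_(m²) ≥ 0` for all `m`, or `λ_(d m) ≥ 0` for all `m`;
* `λ_n ≥ - e^(ε n)` for all large `n` in `A`, for every `ε > 0`, where `A` is one arbitrary set of Bohr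
  recurrence.

If the Riemann hypothesis fails, there is `R > 1` such that `λ_n ≤ - R^n / 4` for all large `n` in a Bohr
set `{n : |u^n - 1| < 1/2 for all u ∈ U}`, `U` a finite set of complex numbers of modulus one; and (if
`Λ` has no real zeros `≥ α`, for example if `α > 3/2`) each of the inequalities `λ_n ≤ - κ R^n` and
`λ_n ≥ κ R^n` holds for a set of `n` with bounded gaps.  In particular, unconditionally, the `n` with
`λ_n ≥ 0` have bounded gaps.

Proof.  `w = (ρ - α)/(ρ + α - 2)` has modulus one exactly on the line, and `w → 1` as `|ρ| → ∞`; so if the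
Riemann hypothesis fails the maximum `R > 1` of `|w|` is attained for finitely many zeros, and
`λ_n = - R^n ∑ Re (w/R)^n + o(R^n)` with a finite sum, which is an almost periodic function with positive
coefficients; the recurrence theorems are proved in `Pool.Agent.N793.LI` (pigeonhole principle; van der
Waerden's theorem and Weyl differencing for the polynomials).
-/

set_option autoImplicit false

open Complex UpperHalfPlane MatrixGroups CongruenceSubgroup Polynomial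

namespace Pool.Agent.N793.Shelf.LiRunsQ

/-- The coefficient `a_p` of `E : y² = x³ + a x + b` at a prime `p ∤ 2 (4a³ + 27b²)`: `p` minus the
number of pairs `(x, y)` modulo `p` with `y² ≡ x³ + a x + b (mod p)`. -/
noncomputable def ap (a b : ℤ) (p : ℕ) : ℤ :=
  (p : ℤ) - (((Finset.range p ×ˢ Finset.range p).filter
    (fun xy : ℕ × ℕ => (p : ℤ) ∣ (xy.2 : ℤ) ^ 2 -
      ((xy.1 : ℤ) ^ 3 + a * (xy.1 : ℤ) + b))).card : ℤ)

/-- The `n`-th Fourier coefficient of `f`. -/
noncomputable def coef {N : ℕ} (f : CuspForm (Gamma0 N : Subgroup (GL (Fin 2) ℝ)) 2) (n : ℕ) : ℂ :=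
  (qExpansion 1 f).coeff n

/-- `f ∈ S_2(Γ₀(N))` is the newform of the elliptic curve `E : y² = x³ + a x + b` of conductor `N` and
root number `w`: the Fourier coefficients `c(n)` of `f` are real with `c(1) = 1`, they satisfy the
Hecke relations `c(mn) = c(m) c(n)` for coprime `m`, `n` and `c(p^(j+2)) = c(p) c(p^(j+1)) - p c(p^j)`
(without the last term if `p ∣ N`), `f(-1/(Nτ)) = -w N τ² f(τ)`, `c(p) = a_p(E)` for all primes
`p ∤ 2 (4a³ + 27b²)`, `|c(p)| ≤ 2 √p` for all `p ∤ N` (Hasse) and `c(p) = 0, 1, -1` for `p ∣ N`.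
By the modularity theorem (Wiles, Taylor-Wiles, Breuil-Conrad-Diamond-Taylor) it exists for every `E`. -/
structure IsFormOf (a b : ℤ) (N : ℕ) (f : CuspForm (Gamma0 N : Subgroup (GL (Fin 2) ℝ)) 2) (w : ℝ) :
    Prop where
  one : coef f 1 = 1
  real : ∀ n, (coef f n).im = 0
  mul : ∀ m n : ℕ, Nat.Coprime m n → coef f (m * n) = coef f m * coef f n
  pow : ∀ p j : ℕ, p.Prime → coef f (p ^ (j + 2)) = coef f p * coef f (p ^ (j + 1)) -
      (if p ∣ N then 0 else (p : ℂ) * coef f (p ^ j))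
  sign : w = 1 ∨ w = -1
  fricke : ∀ τ τ' : ℍ, (τ' : ℂ) * ((N : ℂ) * (τ : ℂ)) = -1 →
    f τ' = -(w : ℂ) * (N : ℂ) * (τ : ℂ) ^ 2 * f τ
  points : ∀ p : ℕ, p.Prime → ¬ (p : ℤ) ∣ 2 * (4 * a ^ 3 + 27 * b ^ 2) → coef f p = (ap a b p : ℂ)
  good : ∀ p : ℕ, p.Prime → ¬ p ∣ N → ‖coef f p‖ ≤ 2 * Real.sqrt p
  bad : ∀ p : ℕ, p.Prime → p ∣ N → coef f p = 0 ∨ coef f p = 1 ∨ coef f p = -1

/-- `Λ` is the completed L-function of `f`: it is entire and
`Λ(s) = N^(s/2) (2π)^(-s) Γ(s) ∑ c(n) n^(-s)` for `Re s > 2`. -/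
def IsCompleted {N : ℕ} (f : CuspForm (Gamma0 N : Subgroup (GL (Fin 2) ℝ)) 2) (Λ : ℂ → ℂ) : Prop :=
  Differentiable ℂ Λ ∧ ∀ s : ℂ, 2 < s.re →
    Λ s = ((Real.sqrt N / (2 * Real.pi) : ℝ) : ℂ) ^ s * Complex.Gamma s *
      ∑' n : ℕ, coef f (n + 1) * ((n + 1 : ℕ) : ℂ) ^ (-s)

/-! ### The Li coefficients -/

/-- The `n`-th Li coefficient of `Λ` with the base point `α`, for the critical line `Re s = c`: the sum
of `Re (1 - ((ρ - α)/(ρ + α - 2c))^n)` over the zeros `ρ` of `Λ` with multiplicity. -/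
noncomputable def li (Λ : ℂ → ℂ) (c α : ℝ) (n : ℕ) : ℝ :=
  ∑' ρ : ℂ, (analyticOrderNatAt Λ ρ : ℝ) * (1 - (((ρ - α) / (ρ + α - 2 * c)) ^ n).re)

/-- The Riemann hypothesis: all zeros of `Λ` are on the line `Re s = c`. -/
def OnLine (Λ : ℂ → ℂ) (c : ℝ) : Prop := ∀ s : ℂ, Λ s = 0 → s.re = c

/-- `A` is a set of Bohr recurrence: for all finitely many complex numbers `u` of modulus one, the powers
`u ^ n` are near `1` at the same time for arbitrarily large `n ∈ A`. -/
def Recurrent (A : Set ℕ) : Prop := ∀ (U : Finset ℂ) (ε : ℝ) (N : ℕ), (∀ u ∈ U, ‖u‖ = 1) → 0 < ε →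
  ∃ n ∈ A, N ≤ n ∧ ∀ u ∈ U, ‖u ^ n - 1‖ < ε

/-- The statements on the signs of the Li coefficients with the base point `α`. -/
structure LiSigns (Λ : ℂ → ℂ) (c α : ℝ) : Prop where
  /-- absolute convergence -/
  summable : ∀ n : ℕ, Summable fun ρ : ℂ =>
    (analyticOrderNatAt Λ ρ : ℝ) * (1 - (((ρ - α) / (ρ + α - 2 * c)) ^ n).re)
  /-- arbitrarily long runs -/
  runs : OnLine Λ c ↔ ∀ L : ℕ, ∃ N : ℕ, ∀ n, N < n → n ≤ N + L → 0 ≤ li Λ c α n
  /-- arbitrarily long runs of coefficients which are not exponentially negative -/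
  weak : OnLine Λ c ↔ ∀ ε : ℝ, 0 < ε → ∀ L : ℕ, ∃ N : ℕ, L ≤ N ∧ ∀ n, N < n → n ≤ N + L →
    -Real.exp (ε * n) ≤ li Λ c α n
  /-- finitely many integers with large gaps, and their differences -/
  gaps : OnLine Λ c ↔ ∀ K : ℕ, ∃ s : ℕ → ℕ, (∀ i, s i + K ≤ s (i + 1)) ∧
    ∀ i j, i < j → j ≤ K → 0 ≤ li Λ c α (s j - s i)
  /-- the differences of one infinite set -/
  differences : ∀ S : Set ℕ, S.Infinite →
    (OnLine Λ c ↔ ∀ s ∈ S, ∀ t ∈ S, t < s → 0 ≤ li Λ c α (s - t))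
  /-- the values of one polynomial without constant term -/
  polynomial : ∀ Q : ℤ[X], Q.coeff 0 = 0 → 0 < Q.leadingCoeff →
    (OnLine Λ c ↔ ∀ m n : ℕ, 1 ≤ m → (n : ℤ) = Q.eval (m : ℤ) → 0 ≤ li Λ c α n)
  /-- one set of Bohr recurrence -/
  recurrent : ∀ A : Set ℕ, Recurrent A →
    (OnLine Λ c ↔ ∀ ε : ℝ, 0 < ε → ∃ N : ℕ, ∀ n ∈ A, N ≤ n → -Real.exp (ε * n) ≤ li Λ c α n)
  /-- if the Riemann hypothesis fails: exponentially negative on a Bohr set -/
  bohr : ¬ OnLine Λ c → ∃ R : ℝ, 1 < R ∧ ∃ U : Finset ℂ, (∀ u ∈ U, ‖u‖ = 1) ∧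
    ∃ N : ℕ, ∀ n, N ≤ n → (∀ u ∈ U, ‖u ^ n - 1‖ < 1 / 2) → li Λ c α n ≤ -(R ^ n / 4)
  /-- if the Riemann hypothesis fails: both signs with bounded gaps -/
  both : (∀ x : ℝ, α ≤ x → Λ x ≠ 0) → ¬ OnLine Λ c → ∃ R : ℝ, 1 < R ∧ ∃ κ : ℝ, 0 < κ ∧
    ∃ L N₀ : ℕ, ∀ N : ℕ, N₀ ≤ N →
      (∃ n, N < n ∧ n ≤ N + L ∧ li Λ c α n ≤ -(κ * R ^ n)) ∧
      (∃ n, N < n ∧ n ≤ N + L ∧ κ * R ^ n ≤ li Λ c α n)
  /-- unconditionally: nonnegative with bounded gaps -/
  unconditional : (∀ x : ℝ, α ≤ x → Λ x ≠ 0) → ∃ L : ℕ, ∀ N : ℕ, ∃ n, N < n ∧ n ≤ N + L ∧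
    0 ≤ li Λ c α n

/-- **Main theorem.** Let `Λ` be the completed L-function of an elliptic curve over `ℚ`.  The statements
`LiSigns` hold for every base point `α > 1` with `Λ(α) ≠ 0`; and `Λ(s) ≠ 0` for `Re s > 3/2`. -/
theorem result (a b : ℤ) (N : ℕ) [NeZero N] (f : CuspForm (Gamma0 N : Subgroup (GL (Fin 2) ℝ)) 2) (w : ℝ)
    (_ : 4 * a ^ 3 + 27 * b ^ 2 ≠ 0) (hf : IsFormOf a b N f w) :
    ∃ Λ : ℂ → ℂ, IsCompleted f Λ ∧ (∀ Λ', IsCompleted f Λ' → Λ' = Λ) ∧
      (∀ s : ℂ, Λ (2 - s) = (w : ℂ) * Λ s) ∧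
      (∀ s : ℂ, 3 / 2 < s.re → Λ s ≠ 0) ∧
      ∀ α : ℝ, 1 < α → Λ α ≠ 0 → LiSigns Λ 1 α := by
  have hf' : Pool.Agent.W169.HF.IsForm N f w :=
    { one := hf.one
      real := hf.real
      mul := hf.mul
      pow := hf.pow
      sign := hf.sign
      fricke := hf.fricke
      good := hf.good
      bad := fun p hp hpN => by
        have h1 : (1 : ℝ) ≤ Real.sqrt p := by
          rw [Real.one_le_sqrt]
          exact_mod_cast hp.one_le
        have h2 : ‖coef f p‖ ≤ 1 := by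
          rcases hf.bad p hp hpN with h | h | h <;> simp [h]
        exact h2.trans h1 }
  obtain ⟨Λ, hΛ, hfe, -, -⟩ := Pool.Agent.W174.HF.nf1 N f w hf'
  have hsf := Pool.Agent.N793.LI.sf_q hf' hΛ.1 ⟨3, fun s hs => hΛ.2 s (by linarith)⟩
  refine ⟨Λ, hΛ, fun Λ' h' => Pool.Agent.W169.HF.completed_unique h' hΛ, hfe, fun s hs h0 => ?_,
    fun α h1 h2 => ?_⟩
  · have h3 := hsf.strip (s - 1) (by
      show Λ (((1 : ℝ) : ℂ) + (s - 1)) = 0
      rw [Complex.ofReal_one, add_sub_cancel]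
      exact h0)
    rw [sub_re, one_re, abs_le] at h3
    linarith [h3.2]
  · have h := Pool.Agent.N793.LI.concl hsf h1 h2
    exact ⟨h.summable, h.runs, h.weak, h.gaps, h.diff, h.poly, h.recur, h.bohr, h.both, h.uncond⟩

end Pool.Agent.N793.Shelf.LiRunsQ
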