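import Pool.Agent.N793.LI.SecFin2
import Pool.Agent.N793.LI.Ex
import Pool.Agent.N793.LI.Inst
import Pool.Agent.W174.HF.NF1
import Pool.Agent.W169.HF.EC

/-!
# The Li coefficients of an elliptic curve are convex one half of the time

Let `E` be an elliptic curve over `ℚ` and `Λ` its completed L-function (critical line `Re s = 1`).  For a
real number `α > 1` (the base point) with `Λ(α) ≠ 0` the Li coefficients are

  `λ_n = ∑_ρ Re (1 - ((ρ - α) / (ρ + α - 2))^n)`,

the sum over all zeros of `Λ` with multiplicity (absolutely convergent; `α = 3/2` are the classical ones).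
By Li, Bombieri-Lagarias, Lagarias (and Sekatskii for arbitrary base points) the Riemann hypothesis for
`L(E, s)` holds if and only if all `λ_n` are nonnegative.  We study the second differences

  `D_n = λ_(n+2) - 2 λ_(n+1) + λ_n`.

**Unconditional theorem.**  For all but countably many base points `α` (to the right of the real zeros of
`Λ`, for example `α ≥ 3/2`) the set of the `n` with `D_n > 0` (the sequence `λ` is strictly convex at `n+1`)
has natural density EXACTLY ONE HALF, and so has the set of the `n` with `D_n < 0`; the same holds in every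
arithmetic progression with odd difference.  No hypothesis on the zeros is used, neither the Riemann
hypothesis nor the linear independence of their ordinates.

**Criteria.**  For EVERY base point `α > 1` with `Λ(α) ≠ 0` the Riemann hypothesis for `L(E, s)` holds if
and only if `|D_n| ≤ 2 λ_1` for all `n`, if and only if the sequence `D_n` is bounded, or only bounded
below, or (if there is no real zero `≥ α`) only bounded above.  For all but countably many `α` the
constant `2 λ_1` is the exact bound on both sides: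

* the Riemann hypothesis holds if and only if `sup D_n = 2 λ_1`, if and only if `inf D_n = - 2 λ_1`;
* if it fails, then `|D_n| > e^(ε n)` for almost all `n`, for some `ε > 0`; so it holds if and only if
  for every `ε > 0` the set of the `n` with `|D_n| ≤ e^(ε n)` does not have density zero.

Proof.  Put `w = (ρ - α)/(ρ + α - 2)`.  If all zeros are on the line then `|w| = 1` and
`D_n = ∑ m_ρ |1 - w|^2 Re w^(n+1)`, and `∑ m_ρ |1 - w|^2 = 2 λ_1`.  For zeros `ρ` on the
line with different positive ordinates the functions `w` of `α` are multiplicatively independent (a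
nontrivial product of powers of them has, as a rational function of `α`, a zero or a pole at one of the `ρ`),
so for all but countably many real `α` the numbers `w` are multiplicatively independent.  By Kronecker's theorem all the `w^(q p)`, `p` odd, are
near `-1` at the same time (also at the central zero, where `w = -1`, since `q p` is odd): the sequence
changes its sign under a translation.  Rotating one frequency only one sees that `D_n` is rarely small.
Together this gives the density one half.  If there is a zero off the line then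
`D_n = - R^n (μ Re (E u^n) + o(1))`, `R > 1`, where `|u| = 1` and `u` is not a root of unity or `u = -1`, for all
but countably many `α`, and one argues in the same way.  The properties of the L-functions are taken from
the starting modules `Pool.Agent.W169.HF`, `Pool.Agent.W174.HF` and `Pool.Agent.W355.UN`, Kronecker's theorem
from `Pool.Agent.R289.Kron2`.
-/

set_option autoImplicit false

open Complex UpperHalfPlane MatrixGroups CongruenceSubgroup Filter Topology

namespace Pool.Agent.Results.MP_553913_nt.LiConvexity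

/-- The coefficient `a_p` of `E : y² = x³ + a x + b` at a prime `p ∤ 2 (4a³ + 27b²)`: `p` minus the
number of pairs `(x, y)` modulo `p` with `y² ≡ x³ + a x + b (mod p)`. -/
noncomputable def ap (a b : ℤ) (p : ℕ) : ℤ :=
  (p : ℤ) - (((Finset.range p ×ˢ Finset.range p).filter
    (fun xy : ℕ × ℕ => (p : ℤ) ∣ (xy.2 : ℤ) ^ 2 -
      ((xy.1 : ℤ) ^ 3 + a * (xy.1 : ℤ) + b))).card : ℤ)

/-- The `n`-th Fourier coefficient of `f`. -/
noncomputable def coef {N : ℕ} (f : CuspForm (Gamma0 N : Subgroup (GL (Fin 2) ℝ)) 2) (n : ℕ) : ℂ :=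
  (qExpansion 1 f).coeff n

/-- `f ∈ S_2(Γ₀(N))` is the newform of the elliptic curve `E : y² = x³ + a x + b` of conductor `N` and
root number `w`: the Fourier coefficients `c(n)` of `f` are real with `c(1) = 1`, they satisfy the
Hecke relations `c(mn) = c(m) c(n)` for coprime `m`, `n` and `c(p^(j+2)) = c(p) c(p^(j+1)) - p c(p^j)`
(without the last term if `p ∣ N`), `f(-1/(Nτ)) = -w N τ² f(τ)`, `c(p) = a_p(E)` for all primes
`p ∤ 2 (4a³ + 27b²)`, `|c(p)| ≤ 2 √p` for all `p ∤ N` (Hasse) and `c(p) = 0, 1, -1` for `p ∣ N`.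
By the modularity theorem (Wiles, Taylor-Wiles, Breuil-Conrad-Diamond-Taylor) it exists for every `E`. -/
structure IsFormOf (a b : ℤ) (N : ℕ) (f : CuspForm (Gamma0 N : Subgroup (GL (Fin 2) ℝ)) 2) (w : ℝ) :
    Prop where
  one : coef f 1 = 1
  real : ∀ n, (coef f n).im = 0
  mul : ∀ m n : ℕ, Nat.Coprime m n → coef f (m * n) = coef f m * coef f n
  pow : ∀ p j : ℕ, p.Prime → coef f (p ^ (j + 2)) = coef f p * coef f (p ^ (j + 1)) -
      (if p ∣ N then 0 else (p : ℂ) * coef f (p ^ j))
  sign : w = 1 ∨ w = -1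
  fricke : ∀ τ τ' : ℍ, (τ' : ℂ) * ((N : ℂ) * (τ : ℂ)) = -1 →
    f τ' = -(w : ℂ) * (N : ℂ) * (τ : ℂ) ^ 2 * f τ
  points : ∀ p : ℕ, p.Prime → ¬ (p : ℤ) ∣ 2 * (4 * a ^ 3 + 27 * b ^ 2) → coef f p = (ap a b p : ℂ)
  good : ∀ p : ℕ, p.Prime → ¬ p ∣ N → ‖coef f p‖ ≤ 2 * Real.sqrt p
  bad : ∀ p : ℕ, p.Prime → p ∣ N → coef f p = 0 ∨ coef f p = 1 ∨ coef f p = -1

/-- `Λ` is the completed L-function of `f`: it is entire and
`Λ(s) = N^(s/2) (2π)^(-s) Γ(s) ∑ c(n) n^(-s)` for `Re s > 2`. -/
def IsCompleted {N : ℕ} (f : CuspForm (Gamma0 N : Subgroup (GL (Fin 2) ℝ)) 2) (Λ : ℂ → ℂ) : Prop :=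
  Differentiable ℂ Λ ∧ ∀ s : ℂ, 2 < s.re →
    Λ s = ((Real.sqrt N / (2 * Real.pi) : ℝ) : ℂ) ^ s * Complex.Gamma s *
      ∑' n : ℕ, coef f (n + 1) * ((n + 1 : ℕ) : ℂ) ^ (-s)

/-! ### The Li coefficients and their second differences -/

/-- The `n`-th Li coefficient of `Λ` with the base point `α`, for the critical line `Re s = c`: the sum
of `Re (1 - ((ρ - α)/(ρ + α - 2c))^n)` over the zeros `ρ` of `Λ` with multiplicity. -/
noncomputable def li (Λ : ℂ → ℂ) (c α : ℝ) (n : ℕ) : ℝ :=
  ∑' ρ : ℂ, (analyticOrderNatAt Λ ρ : ℝ) * (1 - (((ρ - α) / (ρ + α - 2 * c)) ^ n).re)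

/-- The second difference `D_n = λ_(n+2) - 2 λ_(n+1) + λ_n`. -/
noncomputable def D (Λ : ℂ → ℂ) (c α : ℝ) (n : ℕ) : ℝ :=
  li Λ c α (n + 2) - 2 * li Λ c α (n + 1) + li Λ c α n

/-- The Riemann hypothesis: all zeros of `Λ` are on the line `Re s = c`. -/
def OnLine (Λ : ℂ → ℂ) (c : ℝ) : Prop := ∀ s : ℂ, Λ s = 0 → s.re = c

/-- The proportion of the elements of `A` among the numbers `0, …, N - 1`. -/
noncomputable def proportion (A : Set ℕ) (N : ℕ) : ℝ := ((A ∩ Set.Iio N).ncard : ℝ) / N

/-- `A` has the natural density `δ`. -/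
def HasDensity (A : Set ℕ) (δ : ℝ) : Prop := Tendsto (proportion A) atTop (𝓝 δ)

/-- The criteria which hold for every base point `α`. -/
structure Criteria (Λ : ℂ → ℂ) (c α : ℝ) : Prop where
  /-- absolute convergence -/
  summable : ∀ n : ℕ, Summable fun ρ : ℂ =>
    (analyticOrderNatAt Λ ρ : ℝ) * (1 - (((ρ - α) / (ρ + α - 2 * c)) ^ n).re)
  /-- the exact bound -/
  bound : OnLine Λ c ↔ ∀ n : ℕ, |D Λ c α n| ≤ 2 * li Λ c α 1
  /-- bounded -/
  bounded : OnLine Λ c ↔ ∃ C : ℝ, ∀ n : ℕ, |D Λ c α n| ≤ C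
  /-- bounded below -/
  lower : OnLine Λ c ↔ ∃ C : ℝ, ∀ n : ℕ, -C ≤ D Λ c α n
  /-- bounded above -/
  upper : (∀ x : ℝ, α ≤ x → Λ x ≠ 0) → (OnLine Λ c ↔ ∃ C : ℝ, ∀ n : ℕ, D Λ c α n ≤ C)

/-- The statements on the convexity which hold for all but countably many base points `α`. -/
structure Convexity (Λ : ℂ → ℂ) (c α : ℝ) : Prop where
  /-- unconditional: in every progression with odd difference one half of the second differences are
  positive and one half are negative -/
  half : ∀ q r : ℕ, Odd q → HasDensity {m | 0 < D Λ c α (q * m + r)} (1 / 2) ∧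
    HasDensity {m | D Λ c α (q * m + r) < 0} (1 / 2)
  /-- if the Riemann hypothesis fails then almost all of them are exponentially large -/
  large : ¬ OnLine Λ c → ∃ ε : ℝ, 0 < ε ∧ ∀ q r : ℕ, Odd q →
    HasDensity {m | |D Λ c α (q * m + r)| ≤ Real.exp (ε * ((q * m + r : ℕ) : ℝ))} 0
  /-- the supremum -/
  sup : OnLine Λ c ↔ IsLUB (Set.range (D Λ c α)) (2 * li Λ c α 1)
  /-- the infimum -/
  inf : OnLine Λ c ↔ IsGLB (Set.range (D Λ c α)) (-(2 * li Λ c α 1))
  /-- the size of almost all of them -/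
  small : ∀ q r : ℕ, Odd q → (OnLine Λ c ↔ ∀ ε : ℝ, 0 < ε →
    ¬ HasDensity {m | |D Λ c α (q * m + r)| ≤ Real.exp (ε * ((q * m + r : ℕ) : ℝ))} 0)

/-- **Main theorem.** Let `Λ` be the completed L-function of an elliptic curve over `ℚ`.  The statements
`Criteria` hold for every base point `α > 1` with `Λ(α) ≠ 0`, and there is a countable set `X` such that the
statements `Convexity` hold for every base point `α > 1` not in `X` for which `Λ` has no real zero `≥ α`
(in particular for every `α > 3/2` not in `X`). -/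
theorem result (a b : ℤ) (N : ℕ) [NeZero N] (f : CuspForm (Gamma0 N : Subgroup (GL (Fin 2) ℝ)) 2) (w : ℝ)
    (_ : 4 * a ^ 3 + 27 * b ^ 2 ≠ 0) (hf : IsFormOf a b N f w) :
    ∃ Λ : ℂ → ℂ, IsCompleted f Λ ∧ (∀ Λ', IsCompleted f Λ' → Λ' = Λ) ∧
      (∀ s : ℂ, Λ (2 - s) = (w : ℂ) * Λ s) ∧
      (∀ s : ℂ, 3 / 2 < s.re → Λ s ≠ 0) ∧
      (∀ α : ℝ, 1 < α → Λ α ≠ 0 → Criteria Λ 1 α) ∧
      ∃ X : Set ℝ, X.Countable ∧ ∀ α : ℝ, 1 < α → α ∉ X → (∀ x : ℝ, α ≤ x → Λ x ≠ 0) →
        Convexity Λ 1 α := by
  have hf' : Pool.Agent.W169.HF.IsForm N f w :=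
    { one := hf.one
      real := hf.real
      mul := hf.mul
      pow := hf.pow
      sign := hf.sign
      fricke := hf.fricke
      good := hf.good
      bad := fun p hp hpN => by
        have h1 : (1 : ℝ) ≤ Real.sqrt p := by
          rw [Real.one_le_sqrt]
          exact_mod_cast hp.one_le
        have h2 : ‖coef f p‖ ≤ 1 := by
          rcases hf.bad p hp hpN with h | h | h <;> simp [h]
        exact h2.trans h1 }
  obtain ⟨Λ, hΛ, hfe, -, -⟩ := Pool.Agent.W174.HF.nf1 N f w hf'
  have hsf := Pool.Agent.N793.LI.sf_q hf' hΛ.1 ⟨3, fun s hs => hΛ.2 s (by linarith)⟩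
  have hzero := Pool.Agent.N793.LI.exists_zero_q hf' hΛ.1 hΛ.2
  obtain ⟨hA, X, hX, hG⟩ := Pool.Agent.N793.LI.conv_concl hsf
  refine ⟨Λ, hΛ, fun Λ' h' => Pool.Agent.W169.HF.completed_unique h' hΛ, hfe, fun s hs h0 => ?_,
    fun α h1 h2 => ?_, X, hX, fun α h1 h2 h3 => ?_⟩
  · have h3 := hsf.strip (s - 1) (by
      show Λ (((1 : ℝ) : ℂ) + (s - 1)) = 0
      rw [Complex.ofReal_one, add_sub_cancel]
      exact h0)
    rw [sub_re, one_re, abs_le] at h3
    linarith [h3.2]
  · have h3 := hA α h1 h2
    have h5 := Pool.Agent.N793.LI.concl hsf h1 h2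
    exact ⟨h5.summable, h3.bound, h3.bdd, h3.lower, h3.upper⟩
  · have h4 := hG α h1 h2 h3
    have h5 := Pool.Agent.N793.LI.convS_of (hA α h1 (h3 α le_rfl)) h4 h3
    exact ⟨h4.half hzero, h4.large, h5.sup, h5.inf, h5.small⟩

end Pool.Agent.Results.MP_553913_nt.LiConvexity
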