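import Pool.Agent.N793.LI.FinHalf
import Pool.Agent.N793.LI.Inst
import Pool.Agent.N793.LI.InstK
import Pool.Agent.TH839.UH.ECK

/-!
# All or one half: the proportion of the nonnegative Li coefficients of elliptic curves over number fields

Let `E` be an elliptic curve over a number field `K` and `Λ` its completed L-function (critical line `Re s = 1`).  For a
real number `α > 1` (the base point) with `Λ(x) ≠ 0` for all real `x ≥ α` (for example `α > 3/2`) the Li
coefficients are

  `λ_n = ∑_ρ Re (1 - ((ρ - α) / (ρ + α - 2))^n)`,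

the sum over all zeros of `Λ` with multiplicity (absolutely convergent; `α = 3/2` are the classical ones).
By Li, Bombieri-Lagarias, Lagarias (and Sekatskii for arbitrary base points) the Riemann hypothesis for
`L(E/K, s)` holds if and only if ALL `λ_n` are nonnegative.

We prove that for all but countably many base points there are only two possibilities.  Either the Riemann
hypothesis holds for `L(E/K, s)`, and all `λ_n` are nonnegative; or it is false, and then the set of the `n`
with `λ_n ≥ 0` has natural density EXACTLY ONE HALF, also in every arithmetic progression with odd difference,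
and almost all `|λ_n|` are larger than `e^(ε n)`, for some `ε > 0`: one half of the `λ_n` are larger than
`e^(ε n)`, one half are smaller than `- e^(ε n)`.  So for such a base point the Riemann hypothesis for
`L(E/K, s)` is equivalent to each of the following statements, for any odd `q` and any `r`:

* more than one half of the coefficients `λ_(qm+r)` are nonnegative (in the sense of the upper density);
* for every `ε > 0`, more than one half of these coefficients are at least `- e^(ε n)`;
* for every `ε > 0`, more than one half of these coefficients are at most `e^(ε n)`;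
* for every `ε > 0`, the set of those which are at most `e^(ε n)` in absolute value does not have density
  zero.

In particular, the Riemann hypothesis for `L(E/K, s)` holds if and only if for UNCOUNTABLY many base points
`α > 3/2` more than one half of the Li coefficients are nonnegative.

This is proved

* (I) for all elliptic curves over all number fields whose L-function has the properties conjectured by
  Hasse and Weil (`Λ` is entire, of finite order, and `Λ(s) = ± Λ(2 - s)`);
* (II) without any hypothesis for all `E/ℚ` of conductor `N` and all abelian number fields `K` of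
  conductor prime to `N` (given by their groups `G` of Dirichlet characters).

Proof.  `w = (ρ - α)/(ρ + α - 2)` has modulus one exactly on the line, and `w → 1` as `|ρ| → ∞`; so if the
Riemann hypothesis fails the maximum `R > 1` of `|w|` is attained, for finitely many zeros.  For two zeros
left of the line, not equal or conjugate, the moduli are equal for at most one `α`; and for a zero `ρ`,
neither real nor on the line, the argument of `w` is a rational multiple of `π` for countably many `α` only.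
So, if `α` does not belong to a countable set, then `λ_n = - μ R^n cos(n θ) + o(R^n)` with `θ/π` irrational
or `θ = π` (a real zero).  The last function changes its sign (approximately) under a translation and is
rarely small.  The properties of the L-functions are taken from the starting modules
`Pool.Agent.TH839.UH` and `Pool.Agent.W355.UN`.
-/

set_option autoImplicit false

open Complex UpperHalfPlane MatrixGroups CongruenceSubgroup NumberField IsDedekindDomain Filter Topology
open scoped ComplexConjugate Topology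

namespace Pool.Agent.Results.MP_fb225e_nt.LiHalf

/-! ### Hasse-Weil L-functions of elliptic curves over number fields -/

/-- `W v` is, for every finite place `v`, an integral model of `E` with discriminant minimal at
`v`. -/
def MinimalModels {K : Type} [Field K] [NumberField K] (E : WeierstrassCurve K)
    (W : HeightOneSpectrum (𝓞 K) → WeierstrassCurve (𝓞 K)) : Prop :=
  ∀ v : HeightOneSpectrum (𝓞 K),
    (∃ C : WeierstrassCurve.VariableChange K, C • (W v).map (algebraMap (𝓞 K) K) = E) ∧
    ∀ W' : WeierstrassCurve (𝓞 K),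
      (∃ C : WeierstrassCurve.VariableChange K, C • W'.map (algebraMap (𝓞 K) K) = E) →
      ∀ n : ℕ, (W v).Δ ∈ v.asIdeal ^ n → W'.Δ ∈ v.asIdeal ^ n

open Classical in
/-- The Euler factor at `v`, `(1 - a_v Nv^{-s} + Nv^{1-2s})⁻¹` if the reduction at `v` is good and
`(1 - a_v Nv^{-s})⁻¹` if it is bad, where `a_v` is `Nv` minus the number of affine points of the
reduction of `W v`. -/
noncomputable def localFactor {K : Type} [Field K] [NumberField K]
    (W : HeightOneSpectrum (𝓞 K) → WeierstrassCurve (𝓞 K)) (v : HeightOneSpectrum (𝓞 K))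
    (s : ℂ) : ℂ :=
  (1 - ((Ideal.absNorm v.asIdeal : ℂ)
        - (Nat.card {xy : (𝓞 K ⧸ v.asIdeal) × (𝓞 K ⧸ v.asIdeal) //
            ((W v).map (Ideal.Quotient.mk v.asIdeal)).toAffine.Equation xy.1 xy.2} : ℂ))
        * (Ideal.absNorm v.asIdeal : ℂ) ^ (-s)
    + (if (W v).Δ ∈ v.asIdeal then 0 else (Ideal.absNorm v.asIdeal : ℂ))
        * (Ideal.absNorm v.asIdeal : ℂ) ^ (-2 * s))⁻¹

/-- The `L`-function `L(E/K, s)` in the half-plane of convergence, as the Euler product over all
finite places. -/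
noncomputable def LSeries {K : Type} [Field K] [NumberField K]
    (W : HeightOneSpectrum (𝓞 K) → WeierstrassCurve (𝓞 K)) (s : ℂ) : ℂ :=
  ∏' v : HeightOneSpectrum (𝓞 K), localFactor W v s

/-- `Λ` is the completed L-function `A^(s/2) ((2π)^(-s) Γ(s))^[K : ℚ] L(E/K, s)`, and it has the
properties conjectured by Hasse and Weil: it is entire, of finite order, and `Λ(s) = ± Λ(2 - s)`. -/
structure HasseWeil {K : Type} [Field K] [NumberField K]
    (W : HeightOneSpectrum (𝓞 K) → WeierstrassCurve (𝓞 K)) (A : ℝ) (Λ : ℂ → ℂ) : Prop where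
  one_le : 1 ≤ A
  entire : Differentiable ℂ Λ
  order : ∃ c ρ : ℝ, ∀ s : ℂ, ‖Λ s‖ ≤ Real.exp (c * (1 + ‖s‖) ^ ρ)
  fe : ∃ w : ℝ, (w = 1 ∨ w = -1) ∧ ∀ s : ℂ, Λ s = w * Λ (2 - s)
  eq : ∃ σ : ℝ, ∀ s : ℂ, σ ≤ s.re → Λ s = (A : ℂ) ^ (s / 2) *
    ((2 * (Real.pi : ℂ)) ^ (-s) * Gamma s) ^ Module.finrank ℚ K * LSeries W s

/-! ### Elliptic curves over `ℚ` and abelian number fields -/

/-- The coefficient `a_p` of `E : y² = x³ + a x + b` at a prime `p ∤ 2 (4a³ + 27b²)`: `p` minus the
number of pairs `(x, y)` modulo `p` with `y² ≡ x³ + a x + b (mod p)`. -/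
noncomputable def ap (a b : ℤ) (p : ℕ) : ℤ :=
  (p : ℤ) - (((Finset.range p ×ˢ Finset.range p).filter
    (fun xy : ℕ × ℕ => (p : ℤ) ∣ (xy.2 : ℤ) ^ 2 -
      ((xy.1 : ℤ) ^ 3 + a * (xy.1 : ℤ) + b))).card : ℤ)

/-- The `n`-th Fourier coefficient of `f`. -/
noncomputable def coef {N : ℕ} (f : CuspForm (Gamma0 N : Subgroup (GL (Fin 2) ℝ)) 2) (n : ℕ) : ℂ :=
  (qExpansion 1 f).coeff n

/-- `f ∈ S_2(Γ₀(N))` is the newform of the elliptic curve `E : y² = x³ + a x + b` of conductor `N` and
root number `w`: the Fourier coefficients `c(n)` of `f` are real with `c(1) = 1`, they satisfy the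
Hecke relations `c(mn) = c(m) c(n)` for coprime `m`, `n` and `c(p^(j+2)) = c(p) c(p^(j+1)) - p c(p^j)`
(without the last term if `p ∣ N`), `f(-1/(Nτ)) = -w N τ² f(τ)`, `c(p) = a_p(E)` for all primes
`p ∤ 2 (4a³ + 27b²)`, `|c(p)| ≤ 2 √p` for all `p ∤ N` (Hasse) and `c(p) = 0, 1, -1` for `p ∣ N`. -/
structure IsFormOf (a b : ℤ) (N : ℕ) (f : CuspForm (Gamma0 N : Subgroup (GL (Fin 2) ℝ)) 2) (w : ℝ) :
    Prop where
  one : coef f 1 = 1
  real : ∀ n, (coef f n).im = 0
  mul : ∀ m n : ℕ, Nat.Coprime m n → coef f (m * n) = coef f m * coef f n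
  pow : ∀ p j : ℕ, p.Prime → coef f (p ^ (j + 2)) = coef f p * coef f (p ^ (j + 1)) -
      (if p ∣ N then 0 else (p : ℂ) * coef f (p ^ j))
  sign : w = 1 ∨ w = -1
  fricke : ∀ τ τ' : ℍ, (τ' : ℂ) * ((N : ℂ) * (τ : ℂ)) = -1 →
    f τ' = -(w : ℂ) * (N : ℂ) * (τ : ℂ) ^ 2 * f τ
  points : ∀ p : ℕ, p.Prime → ¬ (p : ℤ) ∣ 2 * (4 * a ^ 3 + 27 * b ^ 2) → coef f p = (ap a b p : ℂ)
  good : ∀ p : ℕ, p.Prime → ¬ p ∣ N → ‖coef f p‖ ≤ 2 * Real.sqrt p
  bad : ∀ p : ℕ, p.Prime → p ∣ N → coef f p = 0 ∨ coef f p = 1 ∨ coef f p = -1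

/-- The completed L-function of the twist of `E` by `χ` modulo `q`, for `Re s > 3/2`:
`(√N q / 2π)^s Γ(s) ∑ c(n) χ(n) n^(-s)`. -/
noncomputable def twist {N : ℕ} (f : CuspForm (Gamma0 N : Subgroup (GL (Fin 2) ℝ)) 2) {q : ℕ}
    (χ : DirichletCharacter ℂ q) (s : ℂ) : ℂ :=
  ((Real.sqrt N * q / (2 * Real.pi) : ℝ) : ℂ) ^ s * Complex.Gamma s *
    ∑' n : ℕ, coef f (n + 1) * χ ((n + 1 : ℕ) : ZMod q) * ((n + 1 : ℕ) : ℂ) ^ (-s)

section
variable {M : ℕ} (G : Subgroup (DirichletCharacter ℂ M)) [Fintype G]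

/-- `Λ = Λ(E/K, s)`, where `K` is the abelian number field with the group `G` of Dirichlet
characters: `Λ` is entire and, for large real part, it is the product over `χ` in `G` of the completed
L-functions of the twists of `E` by the primitive character associated with `χ`. -/
def IsCompleted {N : ℕ} (f : CuspForm (Gamma0 N : Subgroup (GL (Fin 2) ℝ)) 2) (Λ : ℂ → ℂ) : Prop :=
  Differentiable ℂ Λ ∧ ∃ σ : ℝ, ∀ s : ℂ, σ ≤ s.re →
    Λ s = ∏ χ : G, twist f (χ : DirichletCharacter ℂ M).primitiveCharacter s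

end

/-! ### The Li coefficients -/

/-- The `n`-th Li coefficient of `Λ` with the base point `α`, for the critical line `Re s = c`: the sum
of `Re (1 - ((ρ - α)/(ρ + α - 2c))^n)` over the zeros `ρ` of `Λ` with multiplicity. -/
noncomputable def li (Λ : ℂ → ℂ) (c α : ℝ) (n : ℕ) : ℝ :=
  ∑' ρ : ℂ, (analyticOrderNatAt Λ ρ : ℝ) * (1 - (((ρ - α) / (ρ + α - 2 * c)) ^ n).re)

/-- The Riemann hypothesis: all zeros of `Λ` are on the line `Re s = c`. -/
def OnLine (Λ : ℂ → ℂ) (c : ℝ) : Prop := ∀ s : ℂ, Λ s = 0 → s.re = c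

/-- The proportion of the elements of `A` among the numbers `0, …, N - 1`. -/
noncomputable def proportion (A : Set ℕ) (N : ℕ) : ℝ := ((A ∩ Set.Iio N).ncard : ℝ) / N

/-- `A` has the natural density `δ`. -/
def HasDensity (A : Set ℕ) (δ : ℝ) : Prop := Tendsto (proportion A) atTop (𝓝 δ)

/-- The upper density of `A` is larger than one half. -/
def MoreThanHalf (A : Set ℕ) : Prop := ∃ δ : ℝ, 0 < δ ∧ ∃ᶠ N in atTop, 1 / 2 + δ ≤ proportion A N

/-- The statements on the proportion of the nonnegative Li coefficients with the base point `α`. -/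
structure LiProportions (Λ : ℂ → ℂ) (c α : ℝ) : Prop where
  /-- absolute convergence -/
  summable : ∀ n : ℕ, Summable fun ρ : ℂ =>
    (analyticOrderNatAt Λ ρ : ℝ) * (1 - (((ρ - α) / (ρ + α - 2 * c)) ^ n).re)
  /-- if the Riemann hypothesis holds: all -/
  all : OnLine Λ c → ∀ n : ℕ, 0 ≤ li Λ c α n
  /-- if the Riemann hypothesis fails: one half are nonnegative, and for some `ε > 0` one half are at least
  `- e^(ε n)` and one half are at most `e^(ε n)`, in every progression with odd difference -/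
  half : ¬ OnLine Λ c → ∃ ε : ℝ, 0 < ε ∧ ∀ q r : ℕ, Odd q →
    HasDensity {m | 0 ≤ li Λ c α (q * m + r)} (1 / 2) ∧
    HasDensity {m | -Real.exp (ε * ((q * m + r : ℕ) : ℝ)) ≤ li Λ c α (q * m + r)} (1 / 2) ∧
    HasDensity {m | li Λ c α (q * m + r) ≤ Real.exp (ε * ((q * m + r : ℕ) : ℝ))} (1 / 2)
  /-- more than one half are nonnegative -/
  nonneg : ∀ q r : ℕ, Odd q → (OnLine Λ c ↔ MoreThanHalf {m | 0 ≤ li Λ c α (q * m + r)})
  /-- more than one half are not exponentially negative -/
  lower : ∀ q r : ℕ, Odd q → (OnLine Λ c ↔ ∀ ε : ℝ, 0 < ε →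
    MoreThanHalf {m | -Real.exp (ε * ((q * m + r : ℕ) : ℝ)) ≤ li Λ c α (q * m + r)})
  /-- more than one half are not exponentially positive -/
  upper : ∀ q r : ℕ, Odd q → (OnLine Λ c ↔ ∀ ε : ℝ, 0 < ε →
    MoreThanHalf {m | li Λ c α (q * m + r) ≤ Real.exp (ε * ((q * m + r : ℕ) : ℝ))})
  /-- those which are not exponentially large do not have density zero -/
  small : ∀ q r : ℕ, Odd q → (OnLine Λ c ↔ ∀ ε : ℝ, 0 < ε →
    ¬ HasDensity {m | |li Λ c α (q * m + r)| ≤ Real.exp (ε * ((q * m + r : ℕ) : ℝ))} 0)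

/-- **Main theorem.**  Let `Λ` be the completed L-function of an elliptic curve

* (I) over any number field for which the conjecture of Hasse and Weil holds;
* (II) over `ℚ`, of conductor `N`, base changed to an abelian number field of conductor prime to `N` (group
  of characters `G` modulo `M`, degree `Fintype.card G`), unconditionally; and here `Λ(s) ≠ 0` for
  `Re s > 3/2`.

There is a countable set `X` such that the statements `LiProportions` hold for every base point `α > 1` not
in `X` for which `Λ` has no real zero `≥ α`.  If `σ ≥ 1` and `Λ` has no real zero `> σ`, then the Riemann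
hypothesis for `Λ` holds if and only if there are uncountably many base points `α > σ` for which more than
one half of the Li coefficients are nonnegative. -/
theorem result :
    (∀ (K : Type) [Field K] [NumberField K] (E : WeierstrassCurve K) [E.IsElliptic]
      (W : HeightOneSpectrum (𝓞 K) → WeierstrassCurve (𝓞 K)), MinimalModels E W →
      ∀ (A : ℝ) (Λ : ℂ → ℂ), HasseWeil W A Λ →
      (∃ X : Set ℝ, X.Countable ∧ ∀ α : ℝ, 1 < α → α ∉ X → (∀ x : ℝ, α ≤ x → Λ x ≠ 0) →
        LiProportions Λ 1 α) ∧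
      ∀ σ : ℝ, 1 ≤ σ → (∀ x : ℝ, σ < x → Λ x ≠ 0) →
        (OnLine Λ 1 ↔ ¬ {α : ℝ | σ < α ∧ MoreThanHalf {n | 0 ≤ li Λ 1 α n}}.Countable)) ∧
    (∀ (a b : ℤ) (N : ℕ) [NeZero N] (f : CuspForm (Gamma0 N : Subgroup (GL (Fin 2) ℝ)) 2) (w : ℝ),
      4 * a ^ 3 + 27 * b ^ 2 ≠ 0 → IsFormOf a b N f w →
      ∀ (M : ℕ) [NeZero M] (G : Subgroup (DirichletCharacter ℂ M)) [Fintype G], Nat.Coprime M N →
      ∃ Λ : ℂ → ℂ, IsCompleted G f Λ ∧ (∀ Λ' : ℂ → ℂ, IsCompleted G f Λ' → Λ' = Λ) ∧
        (∃ W : ℂ, ‖W‖ = 1 ∧ ∀ s : ℂ, Λ (2 - s) = W * conj (Λ (conj s))) ∧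
        (∀ s : ℂ, 3 / 2 < s.re → Λ s ≠ 0) ∧
        (∃ X : Set ℝ, X.Countable ∧ ∀ α : ℝ, 1 < α → α ∉ X → (∀ x : ℝ, α ≤ x → Λ x ≠ 0) →
          LiProportions Λ 1 α) ∧
        ∀ σ : ℝ, 1 ≤ σ → (∀ x : ℝ, σ < x → Λ x ≠ 0) →
          (OnLine Λ 1 ↔ ¬ {α : ℝ | σ < α ∧ MoreThanHalf {n | 0 ≤ li Λ 1 α n}}.Countable)) := by
  refine ⟨?_, ?_⟩
  · intro K _ _ E _ W _ A Λ h
    classical
    have hk : Pool.Agent.TH839.UH.KL
        (fun v : HeightOneSpectrum (𝓞 K) => ((Ideal.absNorm v.asIdeal : ℂ)
          - (Nat.card {xy : (𝓞 K ⧸ v.asIdeal) × (𝓞 K ⧸ v.asIdeal) //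
            ((W v).map (Ideal.Quotient.mk v.asIdeal)).toAffine.Equation xy.1 xy.2} : ℂ)))
        (fun v => if (W v).Δ ∈ v.asIdeal then 0 else (Ideal.absNorm v.asIdeal : ℂ)) A Λ := by
      refine ⟨fun v => Pool.Agent.TH839.UH.trace_le v _, fun v => ?_, fun v => ?_, fun v => ?_,
        h.one_le, h.entire, h.order, h.fe, ?_⟩
      · show ‖(if (W v).Δ ∈ v.asIdeal then 0 else (Ideal.absNorm v.asIdeal : ℂ))‖ ≤
          ((Ideal.absNorm v.asIdeal : ℕ) : ℝ)
        split_ifs
        · rw [norm_zero]
          exact Nat.cast_nonneg _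
        · rw [Complex.norm_natCast]
      · show conj ((Ideal.absNorm v.asIdeal : ℂ) - ((_ : ℕ) : ℂ)) = _
        rw [map_sub, Complex.conj_natCast, Complex.conj_natCast]
      · show conj (if (W v).Δ ∈ v.asIdeal then 0 else (Ideal.absNorm v.asIdeal : ℂ)) = _
        split_ifs
        · rw [map_zero]
        · rw [Complex.conj_natCast]
      · obtain ⟨σ, hσ⟩ := h.eq
        refine ⟨σ, fun s hs => ?_⟩
        rw [hσ s hs]
        congr 1
        unfold LSeries Pool.Agent.TH839.UH.EL
        refine tprod_congr fun v => ?_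
        unfold localFactor Pool.Agent.TH839.UH.NF.gv Pool.Agent.H921R2.TatePole.nm
        congr 1
        ring
    have hsf := Pool.Agent.N793.LI.sf_kl hk
    refine ⟨?_, fun σ hσ hx => Pool.Agent.N793.LI.uncountable_iff hsf hσ hx⟩
    obtain ⟨X, hX, h⟩ := Pool.Agent.N793.LI.half_concl hsf
    refine ⟨X, hX, fun α h1 h2 h3 => ?_⟩
    have h4 := h α h1 h2 h3
    have h5 := Pool.Agent.N793.LI.concl hsf h1 (h3 α le_rfl)
    exact ⟨h5.summable, h4.all, h4.half, h4.more, h4.weak, h4.upper, h4.small⟩
  · intro a b N _ f w _ hf M _ G _ hco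
    have hf' : Pool.Agent.W169.HF.IsForm N f w :=
      { one := hf.one
        real := hf.real
        mul := hf.mul
        pow := hf.pow
        sign := hf.sign
        fricke := hf.fricke
        good := hf.good
        bad := fun p hp hpN => by
          have h1 : (1 : ℝ) ≤ Real.sqrt p := by
            rw [Real.one_le_sqrt]
            exact_mod_cast hp.one_le
          have h2 : ‖coef f p‖ ≤ 1 := by
            rcases hf.bad p hp hpN with h | h | h <;> simp [h]
          exact h2.trans h1 }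
    obtain ⟨Λ, h1, h2, h3⟩ := Pool.Agent.N793.LI.exists_ab G hf' hco
    have hsf := Pool.Agent.N793.LI.sf_ab G hf' hco h1 h2
    refine ⟨Λ, ⟨h1, h2⟩, fun Λ' h' => Pool.Agent.W355.UN.Pk.uniq h1 h'.1 h2 h'.2, h3, fun s hs h0 => ?_,
      ?_, fun σ hσ hx => Pool.Agent.N793.LI.uncountable_iff hsf hσ hx⟩
    · have h3 := hsf.strip (s - 1) (by
        show Λ (((1 : ℝ) : ℂ) + (s - 1)) = 0
        rw [Complex.ofReal_one, add_sub_cancel]
        exact h0)
      rw [sub_re, one_re, abs_le] at h3
      linarith [h3.2]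
    · obtain ⟨X, hX, h⟩ := Pool.Agent.N793.LI.half_concl hsf
      refine ⟨X, hX, fun α h1 h2 h3 => ?_⟩
      have h4 := h α h1 h2 h3
      have h5 := Pool.Agent.N793.LI.concl hsf h1 (h3 α le_rfl)
      exact ⟨h5.summable, h4.all, h4.half, h4.more, h4.weak, h4.upper, h4.small⟩

end Pool.Agent.Results.MP_fb225e_nt.LiHalf
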